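import Pool.Agent.Lib.MP_af06f6_co.Chk.Sound5

/-!
# Soundness of the checker: `chkRow_sound`, `chkRes_sound`
-/

set_option linter.unusedVariables false

namespace AF06.Chk

open AF06.PB Real

/-! ### Closed boxes -/

theorem continuous_Gf (r : NR) (ty : Bool) :
    Continuous fun p : ℝ × ℝ => Gf r ty (bif ty then p.2 * p.1 else p.1)
      (bif ty then p.1 else p.2 * p.1) p.2 := by
  cases ty
  · simp only [cond_false, Gf, vPp, vPn, vQp, vQn, vFp, vFn, vSp, vSn]
    fun_prop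
  · simp only [cond_true, Gf, vPp, vPn, vQp, vQn, vFp, vFn, vSp, vSn]
    fun_prop

theorem closed_box (g : ℝ × ℝ → ℝ) (hg : Continuous g) (y0 y1 i j n2 : ℝ) (hn2 : 0 < n2)
    (h : ∀ b1 b2 : ℝ, 0 ≤ b1 → 0 ≤ b2 →
      0 ≤ g ((y0 + y1 * b1) / (16384 * (1 + b1)), (i + j * b2) / (n2 * (1 + b2))))
    (y ρ : ℝ) (hy0 : y0 / 16384 ≤ y) (hy1 : y ≤ y1 / 16384) (hr0 : i / n2 ≤ ρ)
    (hr1 : ρ ≤ j / n2) : 0 ≤ g (y, ρ) := by
  set F : ℝ × ℝ → ℝ := fun p => g (((1 - p.1) * y0 + p.1 * y1) / 16384,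
    ((1 - p.2) * i + p.2 * j) / n2) with hF
  have hFc : Continuous F := by rw [hF]; fun_prop
  have h1 : Set.Ico (0 : ℝ) 1 ×ˢ Set.Ico (0 : ℝ) 1 ⊆ {p | 0 ≤ F p} := by
    rintro ⟨s, t⟩ ⟨⟨hs0, hs1⟩, ht0, ht1⟩
    simp only at hs0 hs1 ht0 ht1
    have hs' : 0 < 1 - s := by linarith
    have ht' : 0 < 1 - t := by linarith
    have := h (s / (1 - s)) (t / (1 - t)) (by positivity) (by positivity)
    simp only [Set.mem_ofPred_eq, hF]
    have e1 : (y0 + y1 * (s / (1 - s))) / (16384 * (1 + s / (1 - s))) =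
        ((1 - s) * y0 + s * y1) / 16384 := by
      have : 1 + s / (1 - s) = 1 / (1 - s) := by field_simp; ring
      rw [this]; field_simp
    have e2 : (i + j * (t / (1 - t))) / (n2 * (1 + t / (1 - t))) =
        ((1 - t) * i + t * j) / n2 := by
      have : 1 + t / (1 - t) = 1 / (1 - t) := by field_simp; ring
      rw [this]; field_simp
    rw [e1, e2] at this
    exact this
  have h2 : Set.Icc (0 : ℝ) 1 ×ˢ Set.Icc (0 : ℝ) 1 ⊆ {p | 0 ≤ F p} := by
    have hcl : closure (Set.Ico (0 : ℝ) 1 ×ˢ Set.Ico (0 : ℝ) 1) =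
        Set.Icc (0 : ℝ) 1 ×ˢ Set.Icc (0 : ℝ) 1 := by
      rw [closure_prod_eq, closure_Ico (by norm_num)]
    rw [← hcl]
    exact (isClosed_le continuous_const hFc).closure_subset_iff.2 h1
  have key : ∀ a b c v : ℝ, 0 < c → a / c ≤ v → v ≤ b / c →
      ∃ s : ℝ, 0 ≤ s ∧ s ≤ 1 ∧ v = ((1 - s) * a + s * b) / c := by
    intro a b c v hc ha hb
    rw [div_le_iff₀ hc] at ha
    rw [le_div_iff₀ hc] at hb
    rcases eq_or_lt_of_le (ha.trans hb) with hab | hab
    · refine ⟨0, le_rfl, zero_le_one, ?_⟩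
      rw [eq_div_iff hc.ne']
      linarith
    · refine ⟨(v * c - a) / (b - a), div_nonneg (by linarith) (by linarith), ?_, ?_⟩
      · rw [div_le_one (by linarith)]; linarith
      · rw [eq_div_iff hc.ne']
        have : b - a ≠ 0 := by linarith
        field_simp
        ring
  obtain ⟨s, hs0, hs1, hs⟩ := key y0 y1 16384 y (by norm_num) hy0 hy1
  obtain ⟨t, ht0, ht1, ht⟩ := key i j n2 ρ hn2 hr0 hr1
  have := h2 (show ((s, t) : ℝ × ℝ) ∈ _ from ⟨⟨hs0, hs1⟩, ht0, ht1⟩)
  simp only [Set.mem_ofPred_eq, hF] at this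
  rw [← hs, ← ht] at this
  exact this

/-! ### Arctan bounds on a ratio cell -/

theorem mn_eq (a b : ℕ) : mn a b = min a b := by
  unfold mn
  rcases h : Nat.ble a b with _ | _
  · have : ¬ a ≤ b := by
      intro h'
      rw [Nat.ble_eq_true_of_le h'] at h
      exact absurd h (by simp)
    exact (min_eq_right (le_of_lt (not_le.mp this))).symm
  · exact (min_eq_left (Nat.le_of_ble_eq_true h)).symm

theorem mx_eq (a b : ℕ) : mx a b = max a b := by
  unfold mx
  rcases h : Nat.ble a b with _ | _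
  · have : ¬ a ≤ b := by
      intro h'
      rw [Nat.ble_eq_true_of_le h'] at h
      exact absurd h (by simp)
    exact (max_eq_left (le_of_lt (not_le.mp this))).symm
  · exact (max_eq_right (Nat.le_of_ble_eq_true h)).symm

theorem gap_eq (n2 i : ℕ) : gap n2 i =
    2 + min (87241523 / (n2 * n2)) ((i + 1) * 268435456 / (n2 * (n2 * n2))) := by
  unfold gap
  rw [mn_eq]
  rfl

theorem gap_le (n2 i : ℕ) : gap n2 i ≤ 87241525 := by
  rw [gap_eq]
  have : 87241523 / (n2 * n2) ≤ 87241523 := Nat.div_le_self _ _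
  omega

/-- node value: `k/1024 = i/n2` -/
theorem node (n2 i : ℕ) (hn0 : 0 < n2) (hd : n2 ∣ 1024) :
    (((i * (1024 / n2) : ℕ) : ℝ)) / 1024 = (i : ℝ) / n2 := by
  obtain ⟨q, hq⟩ := hd
  have h1 : 1024 / n2 = q := by rw [hq]; exact Nat.mul_div_cancel_left q hn0
  rw [h1]
  have h2 : (1024 : ℝ) = n2 * q := by exact_mod_cast hq
  have hn0' : (0 : ℝ) < n2 := by exact_mod_cast hn0
  have hq0 : (0 : ℝ) < q := by
    have : 0 < q := by
      rcases Nat.eq_zero_or_pos q with h | h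
      · rw [h] at hq; omega
      · exact h
    exact_mod_cast this
  rw [h2]
  push_cast
  field_simp

theorem nat_div_gt (p q : ℕ) (hq : 0 < q) : (p : ℝ) / q + 1 / q ≤ ((p / q : ℕ) : ℝ) + 1 := by
  have h1 : p + 1 ≤ q * (p / q) + q := by
    have := Nat.div_add_mod p q
    have h2 := Nat.mod_lt p hq
    omega
  have hq' : (0 : ℝ) < q := by exact_mod_cast hq
  have h3 : (p : ℝ) + 1 ≤ q * ((p / q : ℕ) : ℝ) + q := by exact_mod_cast h1
  rw [← add_div, div_le_iff₀ hq']
  linarith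

theorem cell_bounds (n2 i : ℕ) (hn0 : 0 < n2) (hd : n2 ∣ 1024) (hi : i + 1 ≤ n2) (b2 : ℝ)
    (hb2 : 0 ≤ b2) (ρ : ℝ) (hρ : ρ = (i + (i + 1) * b2) / (n2 * (1 + b2))) :
    ((tabA (i * (1024 / n2)) : ℝ) + tabA ((i + 1) * (1024 / n2)) * b2) / (1 + b2) ≤
      1073741824 * arctan ρ ∧
    1073741824 * arctan ρ ≤ ((up0 (tabA (i * (1024 / n2))) (gap n2 i) i : ℝ) +
      up1 (tabA ((i + 1) * (1024 / n2))) (gap n2 i) n2 i * b2) / (1 + b2) := by
  have hn0' : (0 : ℝ) < n2 := by exact_mod_cast hn0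
  have hb1 : 0 < 1 + b2 := by linarith
  have hle : n2 ≤ 1024 := Nat.le_of_dvd (by norm_num) hd
  have hk : ∀ j : ℕ, j ≤ n2 → j * (1024 / n2) ≤ 1024 := by
    intro j hj
    calc j * (1024 / n2) ≤ n2 * (1024 / n2) := Nat.mul_le_mul_right _ hj
      _ ≤ 1024 := Nat.mul_div_le _ _
  obtain ⟨t0, t0'⟩ := tabA_ok _ (hk i (by omega))
  obtain ⟨t1, t1'⟩ := tabA_ok _ (hk (i + 1) hi)
  rw [node n2 i hn0 hd] at t0 t0'
  rw [node n2 (i + 1) hn0 hd] at t1 t1'
  push_cast at t1 t1'
  set a : ℝ := (i : ℝ) / n2 with ha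
  set c : ℝ := ((i : ℝ) + 1) / n2 with hc
  have ha0 : 0 ≤ a := by positivity
  have hac : a ≤ c := by rw [ha, hc]; gcongr; linarith
  have hc0 : 0 ≤ c := ha0.trans hac
  have hρ' : ρ = (a + c * b2) / (1 + b2) := by
    rw [hρ, ha, hc]; field_simp
  constructor
  · rw [hρ']
    have h1 := arctan_chord_lo a c b2 ha0 hc0 hb2
    have h2 : ((tabA (i * (1024 / n2)) : ℝ) + tabA ((i + 1) * (1024 / n2)) * b2) / (1 + b2) ≤
        1073741824 * ((arctan a + arctan c * b2) / (1 + b2)) := by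
      rw [← mul_div_assoc, div_le_div_iff_of_pos_right hb1]
      have := mul_le_mul_of_nonneg_right t1 hb2
      linarith
    have h3 := mul_le_mul_of_nonneg_left h1 (by norm_num : (0 : ℝ) ≤ 1073741824)
    linarith
  · rcases Nat.eq_zero_or_pos i with hi0 | hi0
    · subst hi0
      have hu0 : up0 (tabA (0 * (1024 / n2))) (gap n2 0) 0 = 0 := rfl
      have hu1 : up1 (tabA ((0 + 1) * (1024 / n2))) (gap n2 0) n2 0 = 1073741824 / n2 := rfl
      rw [hu0, hu1]
      have h1 : (((1073741824 / n2 : ℕ) : ℝ)) = 1073741824 / n2 := by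
        have : n2 ∣ 1073741824 := hd.trans ⟨1048576, by norm_num⟩
        rw [Nat.cast_div this (by positivity)]
        norm_num
      rw [h1]
      have hρ0 : 0 ≤ ρ := by rw [hρ]; positivity
      have h2 := arctan_le_self' ρ hρ0
      have h3 : ((0 : ℕ) : ℝ) + 1073741824 / n2 * b2 = 1073741824 * (ρ * (1 + b2)) := by
        rw [hρ]; push_cast; field_simp; ring
      rw [h3, ← mul_assoc, mul_div_cancel_right₀ _ hb1.ne']
      linarith
    · have hbeq : Nat.beq i 0 = false := by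
        rcases h : Nat.beq i 0 with _ | _
        · rfl
        · have := Nat.eq_of_beq_eq_true h
          omega
      have hu0 : up0 (tabA (i * (1024 / n2))) (gap n2 i) i =
          tabA (i * (1024 / n2)) + gap n2 i := by
        unfold up0; rw [hbeq]; rfl
      have hu1 : up1 (tabA ((i + 1) * (1024 / n2))) (gap n2 i) n2 i =
          tabA ((i + 1) * (1024 / n2)) + gap n2 i := by
        unfold up1; rw [hbeq]; rfl
      rw [hu0, hu1]
      -- the gap
      have hgap : 1073741824 * (arctan ρ - (arctan a + arctan c * b2) / (1 + b2)) + 1 ≤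
          (gap n2 i : ℝ) := by
        have hca : c - a = 1 / n2 := by rw [hc, ha]; field_simp; ring
        rw [gap_eq]
        rcases le_total (87241523 / (n2 * n2)) ((i + 1) * 268435456 / (n2 * (n2 * n2)))
          with hm | hm
        · rw [min_eq_left hm]
          have h1 := arctan_chord_up a c b2 (13 / 20) ha0 hac hb2
            (fun s t hs hst ht => M_const s t (ha0.trans hs) ((ha0.trans hs).trans hst))
          rw [← hρ', hca] at h1
          have h2 := nat_div_gt 87241523 (n2 * n2) (by positivity)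
          push_cast at h2 ⊢
          have h3 : (1 : ℝ) / 8 * (13 / 20) * 1073741824 * (1 / n2) ^ 2 ≤
              87241523 / (n2 * n2) + 1 / (n2 * n2) := by
            have e : (1 : ℝ) / 8 * (13 / 20) * 1073741824 * (1 / n2) ^ 2 =
              (436207616 / 5) / (n2 * n2) := by field_simp; norm_num
            rw [e, ← add_div, div_le_div_iff_of_pos_right (by positivity)]
            norm_num
          linarith
        · rw [min_eq_right hm]
          have h1 := arctan_chord_up a c b2 (2 * c) ha0 hac hb2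
            (fun s t hs hst ht => M_lin c s t (ha0.trans hs) ((ha0.trans hs).trans hst)
              (hst.trans ht) ht)
          rw [← hρ', hca] at h1
          have h2 := nat_div_gt ((i + 1) * 268435456) (n2 * (n2 * n2)) (by positivity)
          push_cast at h2 ⊢
          have h3 : 1073741824 * (2 * c / 8 * (1 / n2) ^ 2) =
              ((i : ℝ) + 1) * 268435456 / (n2 * (n2 * n2)) := by
            rw [hc]; field_simp; norm_num
          have h4 : (0 : ℝ) ≤ 1 / (n2 * (n2 * n2)) := by positivity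
          linarith
      rw [le_div_iff₀ hb1]
      push_cast
      have e : (arctan a + arctan c * b2) / (1 + b2) * (1 + b2) = arctan a + arctan c * b2 := by
        field_simp
      have h5 := mul_le_mul_of_nonneg_right hgap hb1.le
      have h6 := mul_le_mul_of_nonneg_right t1' hb2
      nlinarith

/-! ### The box test -/

theorem boxT_sound (r : NR) (ty : Bool) (n2 i y0 y1 : ℕ) (hnorm : normOK r ty = true)
    (hn0 : 0 < n2) (hd : n2 ∣ 1024) (hi : i + 1 ≤ n2) (hy0 : y0 ≤ 16384) (hy1 : y1 ≤ 16384)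
    (h : boxT r ty n2 i y0 y1 = true) (y ρ : ℝ) (h1 : (y0 : ℝ) / 16384 ≤ y)
    (h2 : y ≤ (y1 : ℝ) / 16384) (h3 : (i : ℝ) / n2 ≤ ρ) (h4 : ρ ≤ ((i : ℝ) + 1) / n2) :
    0 ≤ Gf r ty (bif ty then ρ * y else y) (bif ty then y else ρ * y) ρ := by
  have hle : n2 ≤ 1024 := Nat.le_of_dvd (by norm_num) hd
  have hk : ∀ j : ℕ, j ≤ n2 → j * (1024 / n2) ≤ 1024 := by
    intro j hj
    calc j * (1024 / n2) ≤ n2 * (1024 / n2) := Nat.mul_le_mul_right _ hj
      _ ≤ 1024 := Nat.mul_div_le _ _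
  have hn0' : (0 : ℝ) < n2 := by exact_mod_cast hn0
  refine closed_box (fun p : ℝ × ℝ => Gf r ty (bif ty then p.2 * p.1 else p.1)
      (bif ty then p.1 else p.2 * p.1) p.2) (continuous_Gf r ty) y0 y1 i ((i : ℝ) + 1) n2 hn0'
      ?_ y ρ h1 h2 h3 h4
  intro b1 b2 hb1 hb2
  obtain ⟨c1, c2⟩ := cell_bounds n2 i hn0 hd hi b2 hb2 _ rfl
  have ta0 := tabA_le _ (hk i (by omega))
  have ta1 := tabA_le _ (hk (i + 1) hi)
  have hg := gap_le n2 i
  have hu0 : up0 (tabA (i * (1024 / n2))) (gap n2 i) i ≤ 1073741824 := by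
    unfold up0
    rcases Nat.beq i 0 with _ | _
    · change tabA (i * (1024 / n2)) + gap n2 i ≤ 1073741824
      omega
    · exact Nat.zero_le _
  have hu1 : up1 (tabA ((i + 1) * (1024 / n2))) (gap n2 i) n2 i ≤ 1073741824 := by
    unfold up1
    rcases Nat.beq i 0 with _ | _
    · change tabA ((i + 1) * (1024 / n2)) + gap n2 i ≤ 1073741824
      omega
    · exact Nat.div_le_self _ _
  unfold boxT bt1 at h
  exact box_param r ty n2 i y0 y1 _ _ _ _ _ hnorm hn0 hle hi hy0 hy1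
    (by rw [mn_eq]; exact min_le_left _ _)
    (by exact ta0.trans (by norm_num)) (by exact ta1.trans (by norm_num)) hu0 hu1 h b1 b2 hb1 hb2
    _ _ rfl rfl c1 c2

/-! ### The recursion -/

theorem orb_spec (a b : Bool) (h : orb a b = true) : a = true ∨ b = true := by
  cases a with
  | false => exact Or.inr h
  | true => exact Or.inl rfl

theorem chk_zero (r : NR) (ty : Bool) (slo shi olo ohi n2 i y0 y1 : ℕ) :
    chk r ty slo shi olo ohi 0 n2 i y0 y1 =
      orb (Nat.blt (clipHi shi ohi n2 i y1) (clipLo slo olo n2 i y0))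
      (boxT r ty n2 i (clipLo slo olo n2 i y0) (clipHi shi ohi n2 i y1)) := rfl

theorem chk_succ (r : NR) (ty : Bool) (slo shi olo ohi fuel n2 i y0 y1 : ℕ) :
    chk r ty slo shi olo ohi (fuel + 1) n2 i y0 y1 =
      (fun lo hi => orb (Nat.blt hi lo) (orb (boxT r ty n2 i lo hi)
        (Bool.rec (motive := fun _ => Bool)
          (Bool.rec (motive := fun _ => Bool)
            (andb (chk r ty slo shi olo ohi fuel n2 i lo ((lo + hi) / 2))
              (chk r ty slo shi olo ohi fuel n2 i ((lo + hi) / 2) hi))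
            false (Nat.blt (hi - lo) 2))
          (andb (chk r ty slo shi olo ohi fuel (2 * n2) (2 * i) lo hi)
            (chk r ty slo shi olo ohi fuel (2 * n2) (2 * i + 1) lo hi))
          (andb (Nat.blt n2 1024) (Nat.blt (hi - lo) (16384 / n2))))))
      (clipLo slo olo n2 i y0) (clipHi shi ohi n2 i y1) := rfl

theorem clip_ok (slo shi olo ohi n2 i y0 y1 : ℕ) (hn0 : 0 < n2) (y ρ : ℝ) (hy : 0 ≤ y)
    (h1 : (y0 : ℝ) / 16384 ≤ y) (h2 : y ≤ (y1 : ℝ) / 16384) (h3 : (i : ℝ) / n2 ≤ ρ)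
    (h4 : ρ ≤ ((i : ℝ) + 1) / n2) (h5 : (slo : ℝ) / 16384 ≤ y) (h6 : y ≤ (shi : ℝ) / 16384)
    (h7 : (olo : ℝ) / 16384 ≤ ρ * y) (h8 : ρ * y ≤ (ohi : ℝ) / 16384) :
    (clipLo slo olo n2 i y0 : ℝ) / 16384 ≤ y ∧ y ≤ (clipHi shi ohi n2 i y1 : ℝ) / 16384 := by
  have hn0' : (0 : ℝ) < n2 := by exact_mod_cast hn0
  have hi1 : (0 : ℝ) < (i : ℝ) + 1 := by positivity
  constructor
  · unfold clipLo
    rw [mx_eq, mx_eq]
    have e : (Nat.div (Nat.mul olo n2) (Nat.add i 1)) = olo * n2 / (i + 1) := rfl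
    rw [e, div_le_iff₀ (by norm_num)]
    rw [div_le_iff₀ (by norm_num)] at h1 h5 h7
    have h9 : (((olo * n2 / (i + 1) : ℕ)) : ℝ) ≤ y * 16384 := by
      have a1 : (((olo * n2 / (i + 1) : ℕ)) : ℝ) ≤ ((olo * n2 : ℕ) : ℝ) / ((i + 1 : ℕ) : ℝ) :=
        Nat.cast_div_le
      refine a1.trans ?_
      push_cast
      rw [div_le_iff₀ hi1]
      have a2 : ρ * y ≤ ((i : ℝ) + 1) / n2 * y := mul_le_mul_of_nonneg_right h4 hy
      have a3 : (olo : ℝ) ≤ ((i : ℝ) + 1) / n2 * y * 16384 := by nlinarith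
      have a4 : (olo : ℝ) * n2 ≤ ((i : ℝ) + 1) / n2 * y * 16384 * n2 :=
        mul_le_mul_of_nonneg_right a3 hn0'.le
      have a5 : ((i : ℝ) + 1) / n2 * y * 16384 * n2 = y * 16384 * ((i : ℝ) + 1) := by
        field_simp
      linarith
    push_cast
    exact max_le h1 (max_le h5 (by exact_mod_cast h9))
  · unfold clipHi
    rw [mn_eq, mn_eq, le_div_iff₀ (by norm_num)]
    rw [le_div_iff₀ (by norm_num)] at h2 h6 h8
    have h9 : y * 16384 ≤ ((Bool.rec (motive := fun _ => ℕ)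
      (Nat.div (Nat.add (Nat.mul ohi n2) (Nat.sub i 1)) i) y1 (Nat.beq i 0) : ℕ) : ℝ) := by
      rcases hb : Nat.beq i 0 with _ | _
      · have hi0 : 0 < i := by
          rcases Nat.eq_zero_or_pos i with h | h
          · subst h; exact absurd hb (by decide)
          · exact h
        have hi0' : (0 : ℝ) < i := by exact_mod_cast hi0
        have e : (Bool.rec (motive := fun _ => ℕ)
          (Nat.div (Nat.add (Nat.mul ohi n2) (Nat.sub i 1)) i) y1 false : ℕ) =
            (ohi * n2 + (i - 1)) / i := rfl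
        rw [e]
        have a1 := nat_div_gt (ohi * n2 + (i - 1)) i hi0
        rw [Nat.cast_add, Nat.cast_sub (by omega : 1 ≤ i)] at a1
        push_cast at a1
        have a2 : (i : ℝ) / n2 * y ≤ ρ * y := mul_le_mul_of_nonneg_right h3 hy
        have a3 : (i : ℝ) / n2 * y * 16384 ≤ ohi := by nlinarith
        have a4 : (i : ℝ) / n2 * y * 16384 * n2 ≤ ohi * n2 := mul_le_mul_of_nonneg_right a3 hn0'.le
        have a5 : (i : ℝ) / n2 * y * 16384 * n2 = y * 16384 * i := by field_simp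
        have a6 : y * 16384 ≤ (ohi : ℝ) * n2 / i := by
          rw [le_div_iff₀ hi0']; linarith
        have a7 : ((ohi : ℝ) * n2 + (i - 1)) / i + 1 / i = (ohi : ℝ) * n2 / i + 1 := by
          field_simp; ring
        linarith
      · exact h2
    push_cast
    exact le_min (le_min h2 h6) (by exact_mod_cast h9)

theorem clipHi_le (shi ohi n2 i y1 : ℕ) : clipHi shi ohi n2 i y1 ≤ shi := by
  unfold clipHi
  rw [mn_eq, mn_eq]
  exact (min_le_left _ _).trans (min_le_right _ _)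

theorem chk_sound (r : NR) (ty : Bool) (slo shi olo ohi : ℕ) (hnorm : normOK r ty = true)
    (hshi : shi ≤ 16384) (fuel : ℕ) (n2 i y0 y1 : ℕ) (hn0 : 0 < n2) (hd : n2 ∣ 1024)
    (hi : i + 1 ≤ n2) (h : chk r ty slo shi olo ohi fuel n2 i y0 y1 = true) (y ρ : ℝ)
    (hy : 0 ≤ y) (h1 : (y0 : ℝ) / 16384 ≤ y) (h2 : y ≤ (y1 : ℝ) / 16384)
    (h3 : (i : ℝ) / n2 ≤ ρ) (h4 : ρ ≤ ((i : ℝ) + 1) / n2) (h5 : (slo : ℝ) / 16384 ≤ y)
    (h6 : y ≤ (shi : ℝ) / 16384) (h7 : (olo : ℝ) / 16384 ≤ ρ * y)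
    (h8 : ρ * y ≤ (ohi : ℝ) / 16384) :
    0 ≤ Gf r ty (bif ty then ρ * y else y) (bif ty then y else ρ * y) ρ := by
  have hn0' : (0 : ℝ) < n2 := by exact_mod_cast hn0
  induction fuel generalizing n2 i y0 y1 with
  | zero =>
    rw [chk_zero] at h
    obtain ⟨c1, c2⟩ := clip_ok slo shi olo ohi n2 i y0 y1 hn0 y ρ hy h1 h2 h3 h4 h5 h6 h7 h8
    have c3 := clipHi_le shi ohi n2 i y1
    generalize clipLo slo olo n2 i y0 = lo at *
    generalize clipHi shi ohi n2 i y1 = hi' at *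
    have hlohi : lo ≤ hi' := by
      have : (lo : ℝ) / 16384 ≤ (hi' : ℝ) / 16384 := c1.trans c2
      rw [div_le_div_iff_of_pos_right (by norm_num)] at this
      exact_mod_cast this
    rcases orb_spec _ _ h with h | h
    · have : hi' < lo := by simpa [Nat.blt_eq] using h
      omega
    · exact boxT_sound r ty n2 i lo hi' hnorm hn0 hd hi (by omega) (by omega) h y ρ c1 c2 h3 h4
  | succ fuel ih =>
    rw [chk_succ] at h
    obtain ⟨c1, c2⟩ := clip_ok slo shi olo ohi n2 i y0 y1 hn0 y ρ hy h1 h2 h3 h4 h5 h6 h7 h8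
    have c3 := clipHi_le shi ohi n2 i y1
    generalize clipLo slo olo n2 i y0 = lo at *
    generalize clipHi shi ohi n2 i y1 = hi' at *
    have hlohi : lo ≤ hi' := by
      have : (lo : ℝ) / 16384 ≤ (hi' : ℝ) / 16384 := c1.trans c2
      rw [div_le_div_iff_of_pos_right (by norm_num)] at this
      exact_mod_cast this
    rcases orb_spec _ _ h with h | h
    · have : hi' < lo := by simpa [Nat.blt_eq] using h
      omega
    rcases orb_spec _ _ h with h | h
    · exact boxT_sound r ty n2 i lo hi' hnorm hn0 hd hi (by omega) (by omega) h y ρ c1 c2 h3 h4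
    rcases hc : andb (Nat.blt n2 1024) (Nat.blt (hi' - lo) (16384 / n2)) with _ | _
    · rw [hc] at h
      rcases hs : Nat.blt (hi' - lo) 2 with _ | _
      · rw [hs] at h
        obtain ⟨ha, hb⟩ := andb_spec _ _ h
        rcases le_total y (((lo + hi') / 2 : ℕ) / 16384 : ℝ) with hm | hm
        · exact ih n2 i lo ((lo + hi') / 2) hn0 hd hi ha c1 hm h3 h4 hn0'
        · exact ih n2 i ((lo + hi') / 2) hi' hn0 hd hi hb hm c2 h3 h4 hn0'
      · rw [hs] at h
        exact absurd h (by simp)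
    · rw [hc] at h
      obtain ⟨hc1, _⟩ := andb_spec _ _ hc
      have hlt : n2 < 1024 := by simpa [Nat.blt_eq] using hc1
      have hd2 : 2 * n2 ∣ 1024 := by
        obtain ⟨k, hk, rfl⟩ := (Nat.dvd_prime_pow Nat.prime_two (m := 10) (i := n2)).1
          (by norm_num; exact hd)
        rcases hk.eq_or_lt with rfl | hk'
        · norm_num at hlt
        · rw [← pow_succ']
          exact (by norm_num : (1024 : ℕ) = 2 ^ 10) ▸ Nat.pow_dvd_pow 2 hk'
      obtain ⟨ha, hb⟩ := andb_spec _ _ h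
      have hn2' : (0 : ℝ) < ((2 * n2 : ℕ) : ℝ) := by push_cast; positivity
      rcases le_total ρ ((2 * (i : ℝ) + 1) / (2 * n2)) with hm | hm
      · refine ih (2 * n2) (2 * i) lo hi' (by omega) hd2 (by omega) ha c1 c2 ?_ ?_ hn2'
        · push_cast
          rw [mul_div_mul_left _ _ (by norm_num)]; exact h3
        · push_cast; exact hm
      · refine ih (2 * n2) (2 * i + 1) lo hi' (by omega) hd2 (by omega) hb c1 c2 ?_ ?_ hn2'
        · push_cast; exact hm
        · push_cast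
          have : (2 * (i : ℝ) + 1 + 1) / (2 * n2) = ((i : ℝ) + 1) / n2 := by
            field_simp; ring
          rw [this]; exact h4

/-! ### The value `E` -/

theorem toNat_sub' (a : ℤ) : ((a.toNat : ℕ) : ℝ) - ((-a).toNat : ℕ) = a :=
  AF06.PB.toNat_sub a

theorem E_of_I (r : Row) (x z : ℝ) (hx : 0 < x) (hx1 : x < 1) :
    Gf (toNR r) false x z (z / x) = 1000000 * (1 - x ^ 2) * E r x z := by
  have hP : vPp (toNR r) x z - vPn (toNR r) x z =
      (r.p10 + r.p11 * x + r.p12 * x ^ 2 + r.p13 * x ^ 3) + (r.p20 + r.p21 * z + r.p22 * z ^ 2) := by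
    unfold vPp vPn toNR
    simp only
    have e0 := toNat_sub' (r.p10 + r.p20)
    have e1 := toNat_sub' r.p11
    have e2 := toNat_sub' r.p12
    have e3 := toNat_sub' r.p13
    have e4 := toNat_sub' r.p21
    have e5 := toNat_sub' r.p22
    push_cast at e0
    linear_combination e0 + x * e1 + x ^ 2 * e2 + x ^ 3 * e3 + z * e4 + z ^ 2 * e5
  have hQ : vQp (toNR r) x z - vQn (toNR r) x z =
      (r.q10 + r.q11 * x + r.q12 * x ^ 2 + r.q13 * x ^ 3) + (r.q20 + r.q21 * z + r.q22 * z ^ 2) := by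
    unfold vQp vQn toNR
    simp only
    have e0 := toNat_sub' (r.q10 + r.q20)
    have e1 := toNat_sub' r.q11
    have e2 := toNat_sub' r.q12
    have e3 := toNat_sub' r.q13
    have e4 := toNat_sub' r.q21
    have e5 := toNat_sub' r.q22
    push_cast at e0
    linear_combination e0 + x * e1 + x ^ 2 * e2 + x ^ 3 * e3 + z * e4 + z ^ 2 * e5
  have hF : vFp (toNR r) z - vFn (toNR r) z = r.f0 + r.f1 * z + r.f2 * z ^ 2 := by
    unfold vFp vFn toNR
    simp only
    have e0 := toNat_sub' r.f0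
    have e1 := toNat_sub' r.f1
    have e2 := toNat_sub' r.f2
    linear_combination e0 + z * e1 + z ^ 2 * e2
  have hS : vSp (toNR r) x - vSn (toNR r) x =
      r.s0 + r.s1 * x + r.s2 * x ^ 2 + r.s3 * x ^ 3 := by
    unfold vSp vSn toNR
    simp only
    have e0 := toNat_sub' r.s0
    have e1 := toNat_sub' r.s1
    have e2 := toNat_sub' r.s2
    have e3 := toNat_sub' r.s3
    linear_combination e0 + x * e1 + x ^ 2 * e2 + x ^ 3 * e3
  have hK : ((toNR r).K4 : ℝ) = 4 * r.K := by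
    unfold toNR
    simp only
    push_cast; ring
  unfold Gf E
  simp only [cond_false]
  rw [hP, hQ, hF, hS, hK]
  have h1 : (1 - x ^ 2) ≠ 0 := by nlinarith
  field_simp
  ring

theorem Gf_swap (r : NR) (x z : ℝ) (hx : 0 < x) (hz : 0 < z) :
    Gf r true x z (x / z) = Gf r false x z (z / x) := by
  have h1 : arctan (x / z) = π / 2 - arctan (z / x) := by
    have := arctan_inv_of_pos (div_pos hz hx)
    rw [inv_div] at this
    exact this
  unfold Gf
  simp only [cond_true, cond_false]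
  rw [h1]
  ring

theorem E_nonneg_of_Gf (r : Row) (x z : ℝ) (hx : 0 < x) (hx1 : x < 1)
    (h : 0 ≤ Gf (toNR r) false x z (z / x)) : 0 ≤ E r x z := by
  rw [E_of_I r x z hx hx1] at h
  have h1 : 0 < 1000000 * (1 - x ^ 2) := by
    have : x ^ 2 < 1 := by nlinarith
    linarith
  exact nonneg_of_mul_nonneg_right h h1

/-- **Soundness of `chkRow`.** -/
theorem chkRow_sound (r : Row) (xlo xhi zlo zhi fuel : ℕ)
    (h : chkRow r xlo xhi zlo zhi fuel = true) (x z : ℝ) (hx : 0 < x) (hz : 0 < z)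
    (hx1 : (xlo : ℝ) / 16384 ≤ x) (hx2 : x ≤ (xhi : ℝ) / 16384)
    (hz1 : (zlo : ℝ) / 16384 ≤ z) (hz2 : z ≤ (zhi : ℝ) / 16384) : 0 ≤ E r x z := by
  obtain ⟨h0, h⟩ := andb_spec _ _ h
  obtain ⟨hn, h⟩ := andb_spec _ _ h
  obtain ⟨hI, hII⟩ := andb_spec _ _ h
  obtain ⟨hn1, hn2⟩ := andb_spec _ _ hn
  obtain ⟨ha, hb⟩ := andb_spec _ _ h0
  have ha' : xhi ≤ 13435 := Nat.le_of_ble_eq_true ha
  have hb' : zhi ≤ 16384 := Nat.le_of_ble_eq_true hb
  have hx3 : x < 1 := by
    have : (xhi : ℝ) ≤ 13435 := by exact_mod_cast ha'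
    have : (xhi : ℝ) / 16384 ≤ 13435 / 16384 := by linarith
    linarith
  refine E_nonneg_of_Gf r x z hx hx3 ?_
  rcases le_total z x with hzx | hxz
  · have hzx' : z / x * x = z := by field_simp
    have := chk_sound (toNR r) false xlo xhi zlo zhi hn1 (by omega) fuel 1 0 xlo xhi one_pos
      (by norm_num) le_rfl hI x (z / x) hx.le hx1 hx2 (by simp; positivity)
      (by simp; rw [div_le_one hx]; exact hzx) hx1 hx2 (by rw [hzx']; exact hz1)
      (by rw [hzx']; exact hz2)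
    simp only [cond_false] at this
    rwa [hzx'] at this
  · have hxz' : x / z * z = x := by field_simp
    have := chk_sound (toNR r) true zlo zhi xlo xhi hn2 hb' fuel 1 0 zlo zhi one_pos
      (by norm_num) le_rfl hII z (x / z) hz.le hz1 hz2 (by simp; positivity)
      (by simp; rw [div_le_one hz]; exact hxz) hz1 hz2 (by rw [hxz']; exact hx1)
      (by rw [hxz']; exact hx2)
    simp only [cond_true] at this
    rw [hxz'] at this
    rwa [Gf_swap _ _ _ hx hz] at this

theorem chkCells_spec (f : ℕ → ℕ → Bool) (t : List (Option ℕ)) (i0 : ℕ)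
    (h : chkCells f t i0 = true) (i xm : ℕ) (hi : t[i]? = some (some xm)) :
    f (i0 + i) xm = true := by
  induction t generalizing i0 i with
  | nil => simp at hi
  | cons o t ih =>
    obtain ⟨h1, h2⟩ := andb_spec _ _ h
    cases i with
    | zero =>
      simp only [List.getElem?_cons_zero, Option.some.injEq] at hi
      subst hi
      exact h1
    | succ i =>
      rw [List.getElem?_cons_succ] at hi
      have := ih (i0 + 1) h2 i hi
      rwa [show i0 + (i + 1) = i0 + 1 + i by ring]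

/-- **Soundness of `chkRes`** (restricted rows). -/
theorem chkRes_sound (r : Row) (xlo xhi zlo zhi fuel : ℕ) (t1 t2 : List (Option ℕ))
    (h : chkRes r xlo xhi zlo zhi fuel t1 t2 = true) (x z : ℝ) (hx : 0 < x) (hz : 0 < z)
    (hx1 : (xlo : ℝ) / 16384 ≤ x) (hx2 : x ≤ (xhi : ℝ) / 16384)
    (hz1 : (zlo : ℝ) / 16384 ≤ z) (hz2 : z ≤ (zhi : ℝ) / 16384)
    (hc : (∃ i xm : ℕ, t1[i]? = some (some xm) ∧ (i : ℝ) / 32 ≤ z / x ∧
        z / x ≤ ((i : ℝ) + 1) / 32 ∧ (xm : ℝ) / 16384 ≤ x) ∨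
      (∃ i xm : ℕ, t2[i]? = some (some xm) ∧ (i : ℝ) / 32 ≤ x / z ∧
        x / z ≤ ((i : ℝ) + 1) / 32 ∧ (xm : ℝ) / 16384 ≤ x)) : 0 ≤ E r x z := by
  obtain ⟨h0, h⟩ := andb_spec _ _ h
  obtain ⟨hn, h⟩ := andb_spec _ _ h
  obtain ⟨hI, hII⟩ := andb_spec _ _ h
  obtain ⟨hn1, hn2⟩ := andb_spec _ _ hn
  obtain ⟨hlen, h0⟩ := andb_spec _ _ h0
  obtain ⟨hl1, hl2⟩ := andb_spec _ _ hlen
  obtain ⟨ha, hb⟩ := andb_spec _ _ h0
  have ha' : xhi ≤ 13435 := Nat.le_of_ble_eq_true ha
  have hb' : zhi ≤ 16384 := Nat.le_of_ble_eq_true hb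
  have hl1' : t1.length ≤ 32 := Nat.le_of_ble_eq_true hl1
  have hl2' : t2.length ≤ 32 := Nat.le_of_ble_eq_true hl2
  have hx3 : x < 1 := by
    have : (xhi : ℝ) ≤ 13435 := by exact_mod_cast ha'
    have : (xhi : ℝ) / 16384 ≤ 13435 / 16384 := by linarith
    linarith
  refine E_nonneg_of_Gf r x z hx hx3 ?_
  have hmax : ∀ xm : ℕ, (xm : ℝ) / 16384 ≤ x → ((mx xlo xm : ℕ) : ℝ) / 16384 ≤ x := by
    intro xm hxm
    rw [mx_eq]
    push_cast
    rw [div_le_iff₀ (by norm_num)] at hx1 hxm ⊢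
    exact max_le hx1 hxm
  rcases hc with ⟨i, xm, hi, hr1, hr2, hxm⟩ | ⟨i, xm, hi, hr1, hr2, hxm⟩
  · have hi32 : i < 32 := by
      have := (List.getElem?_eq_some_iff.1 hi).1
      omega
    have hch := chkCells_spec _ _ _ hI i xm hi
    simp only [zero_add] at hch
    have hzx' : z / x * x = z := by field_simp
    have := chk_sound (toNR r) false (mx xlo xm) xhi zlo zhi hn1 (by omega) fuel 32 i
      (mx xlo xm) xhi (by norm_num) (by norm_num) (by omega) hch x (z / x) hx.le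
      (hmax xm hxm) hx2 (by push_cast; exact hr1) (by push_cast; exact hr2) (hmax xm hxm) hx2
      (by rw [hzx']; exact hz1) (by rw [hzx']; exact hz2)
    simp only [cond_false] at this
    rwa [hzx'] at this
  · have hi32 : i < 32 := by
      have := (List.getElem?_eq_some_iff.1 hi).1
      omega
    have hch := chkCells_spec _ _ _ hII i xm hi
    simp only [zero_add] at hch
    have hxz' : x / z * z = x := by field_simp
    have := chk_sound (toNR r) true zlo zhi (mx xlo xm) xhi hn2 hb' fuel 32 i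
      zlo zhi (by norm_num) (by norm_num) (by omega) hch z (x / z) hz.le
      hz1 hz2 (by push_cast; exact hr1) (by push_cast; exact hr2) hz1 hz2
      (by rw [hxz']; exact hmax xm hxm) (by rw [hxz']; exact hx2)
    simp only [cond_true] at this
    rw [hxz'] at this
    rwa [Gf_swap _ _ _ hx hz] at this

end AF06.Chk
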