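import Pool.Agent.Lib.MP_af06f6_co.Chk.Defs

/-!
# Soundness of the checker, part 1: from the packed test to real polynomial inequalities
-/

set_option linter.unusedVariables false

namespace AF06.Chk

open AF06.PB

/-! ### Naturality of `evG` -/

def mp3 {α β : Type} (h : α → β) (q : (α × α) × (α × α) × (α × α)) :
    (β × β) × (β × β) × (β × β) :=
  ((h q.1.1, h q.1.2), (h q.2.1.1, h q.2.1.2), (h q.2.2.1, h q.2.2.2))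

theorem evG_map {α β : Type} (ad ml : α → α → α) (c : ℕ → α) (ad' ml' : β → β → β) (c' : ℕ → β)
    (h : α → β) (had : ∀ a b, h (ad a b) = ad' (h a) (h b))
    (hml : ∀ a b, h (ml a b) = ml' (h a) (h b)) (hc : ∀ n, h (c n) = c' n)
    (r : NR) (ty : Bool) (n2 i i1 y0 y1 Nn TM al0 al1 au0 au1 b1 b2 : α) :
    mp3 h (evG ad ml c r ty n2 i i1 y0 y1 Nn TM al0 al1 au0 au1 b1 b2) =
      evG ad' ml' c' r ty (h n2) (h i) (h i1) (h y0) (h y1) (h Nn) (h TM) (h al0) (h al1)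
        (h au0) (h au1) (h b1) (h b2) := by
  cases ty <;>
  simp only [evG, st0, stA, stB, stC, stD, stE, stF, stG, c6, c4, c3, mp3, had, hml, hc]

/-! ### Polynomials with degree bounds -/

structure PD where
  L : List (List ℕ)
  a : ℕ
  b : ℕ
  h : Sz a b L

def PD.ad (P Q : PD) : PD := ⟨padd2 P.L Q.L, max P.a Q.a, max P.b Q.b, P.h.add Q.h⟩
def PD.ml (P Q : PD) : PD := ⟨pmul2 P.L Q.L, P.a + Q.a, P.b + Q.b, P.h.mul Q.h⟩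
def PD.c (n : ℕ) : PD := ⟨[[n]], 0, 0, Sz.one n⟩
def PD.b1 : PD := ⟨[[0, 1]], 1, 0, by simp [Sz]⟩
def PD.b2 : PD := ⟨[[], [1]], 0, 1, by simp [Sz]⟩

section R
variable {R : Type} [CommSemiring R]

def PD.ev (X Y : R) (P : PD) : R := ev2 P.L X Y

theorem PD.ev_ad (X Y : R) (P Q : PD) : PD.ev X Y (PD.ad P Q) = PD.ev X Y P + PD.ev X Y Q :=
  ev2_padd2 _ _ _ _

theorem PD.ev_ml (X Y : R) (P Q : PD) : PD.ev X Y (PD.ml P Q) = PD.ev X Y P * PD.ev X Y Q :=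
  ev2_pmul2 _ _ _ _

theorem PD.ev_c (X Y : R) (n : ℕ) : PD.ev X Y (PD.c n) = (n : R) := by
  simp [PD.ev, PD.c, ev2, AF06.PB.ev]

theorem PD.ev_b1 (X Y : R) : PD.ev X Y PD.b1 = X := by
  simp [PD.ev, PD.b1, ev2, AF06.PB.ev]

theorem PD.ev_b2 (X Y : R) : PD.ev X Y PD.b2 = Y := by
  simp [PD.ev, PD.b2, ev2, AF06.PB.ev]

end R

/-- the polynomial version of the evaluation -/
noncomputable def evP (r : NR) (ty : Bool) (n2 i i1 y0 y1 Nn TM al0 al1 au0 au1 : ℕ) :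
    (PD × PD) × (PD × PD) × (PD × PD) :=
  evG PD.ad PD.ml PD.c r ty (PD.c n2) (PD.c i) (PD.c i1) (PD.c y0) (PD.c y1) (PD.c Nn)
    (PD.c TM) (PD.c al0) (PD.c al1) (PD.c au0) (PD.c au1) PD.b1 PD.b2

/-- evaluation of the polynomial version -/
theorem evP_ev {R : Type} [CommSemiring R] (X Y : R) (r : NR) (ty : Bool)
    (n2 i i1 y0 y1 Nn TM al0 al1 au0 au1 : ℕ) :
    mp3 (PD.ev X Y) (evP r ty n2 i i1 y0 y1 Nn TM al0 al1 au0 au1) =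
      evG (fun a b : R => a + b) (fun a b : R => a * b) (fun n : ℕ => (n : R)) r ty
        (n2 : R) (i : R) (i1 : R) (y0 : R) (y1 : R) (Nn : R) (TM : R) (al0 : R) (al1 : R)
        (au0 : R) (au1 : R) X Y := by
  unfold evP
  rw [evG_map PD.ad PD.ml PD.c (fun a b : R => a + b) (fun a b : R => a * b)
    (fun n : ℕ => (n : R)) (PD.ev X Y) (PD.ev_ad X Y) (PD.ev_ml X Y) (PD.ev_c X Y)]
  simp only [PD.ev_c, PD.ev_b1, PD.ev_b2]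

/-- over `ℕ` this is the kernel computation -/
theorem evP_evN (X Y : ℕ) (r : NR) (ty : Bool)
    (n2 i i1 y0 y1 Nn TM al0 al1 au0 au1 : ℕ) :
    mp3 (PD.ev X Y) (evP r ty n2 i i1 y0 y1 Nn TM al0 al1 au0 au1) =
      evG Nat.add Nat.mul (fun n : ℕ => n) r ty
        n2 i i1 y0 y1 Nn TM al0 al1 au0 au1 X Y := by
  have := evP_ev (R := ℕ) X Y r ty n2 i i1 y0 y1 Nn TM al0 al1 au0 au1
  simp only [Nat.cast_id] at this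
  exact this

/-- degrees -/
theorem evP_deg (r : NR) (ty : Bool) (n2 i i1 y0 y1 Nn TM al0 al1 au0 au1 : ℕ) :
    mp3 (fun P : PD => (P.a, P.b)) (evP r ty n2 i i1 y0 y1 Nn TM al0 al1 au0 au1) =
      (((3, 3), (3, 3)), ((7, 7), (7, 7)), ((7, 7), (7, 7))) := by
  unfold evP
  rw [evG_map PD.ad PD.ml PD.c (fun a b : ℕ × ℕ => (max a.1 b.1, max a.2 b.2))
    (fun a b : ℕ × ℕ => (a.1 + b.1, a.2 + b.2)) (fun n : ℕ => (0, 0))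
    (fun P : PD => (P.a, P.b)) (fun _ _ => rfl) (fun _ _ => rfl) (fun _ => rfl)]
  cases ty <;>
  simp [evG, st0, stA, stB, stC, stD, stE, stF, stG, c6, c4, c3, PD.c, PD.b1, PD.b2]

/-! ### The mask test -/

theorem mask_real (P N : PD) (hPa : P.a ≤ 7) (hPb : P.b ≤ 7) (hNa : N.a ≤ 7) (hNb : N.b ≤ 7)
    (B1 B2 : ℕ) (hB1 : B1 = 2 ^ (271 + 1)) (hB2 : B2 = 2 ^ ((271 + 1) * 8))
    (hm : mt (P.ev B1 B2) (N.ev B1 B2) = true)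
    (hn : P.ev (1 : ℕ) 1 + N.ev (1 : ℕ) 1 < 2 ^ 271) (X Y : ℝ) (hX : 0 ≤ X) (hY : 0 ≤ Y) :
    N.ev X Y ≤ P.ev X Y := by
  have hPs := P.h.mono hPa hPb
  have hNs := N.h.mono hNa hNb
  have key : ∀ Q : PD, Sz 7 7 Q.L → Q.ev (1 : ℕ) 1 ≤ P.ev (1 : ℕ) 1 + N.ev (1 : ℕ) 1 →
      Pk (271 + 1) 8 8 (pad2 8 8 Q.L) (Q.ev B1 B2)
        (P.ev (1 : ℕ) 1 + N.ev (1 : ℕ) 1) := by
    intro Q hQ hle
    refine ⟨pad2_rect _ _ _, pad2_length _ _ _, ?_, ?_⟩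
    · rw [hev2_pad2 8 8 Q.L hQ.1 hQ.2, ← hB1, ← hB2, PD.ev]
    · rw [tot, hev2_pad2 8 8 Q.L hQ.1 hQ.2]; exact hle
  have hP := key P hPs (Nat.le_add_right _ _)
  have hN := key N hNs (Nat.le_add_left _ _)
  have hH : HH = 2 ^ 271 * gs (2 ^ (271 + 1)) (8 * 8) := rfl
  have hlt : lt (2 ^ 271) (0 * gs (2 ^ (271 + 1)) (8 * 8)) (2 ^ 271 * gs (2 ^ (271 + 1)) (8 * 8))
      (P.ev B1 B2) (N.ev B1 B2) (P.ev (1 : ℕ) 1 + N.ev (1 : ℕ) 1) = true := by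
    have h1 : Nat.blt (P.ev (1 : ℕ) 1 + N.ev (1 : ℕ) 1) (2 ^ 271) = true := by
      rw [Nat.blt_eq]; exact hn
    unfold lt
    rw [h1, zero_mul, ← hH]
    exact hm
  have hc := lt_cmp 271 0 8 8 (Nat.zero_le 1) (by norm_num) (by norm_num) _ _ _ _ _ hP hN hlt
  have := (hc 1 X 1 Y zero_le_one hX zero_le_one hY (by linarith) (by linarith)).1
  rw [hev2_pad2 8 8 _ hPs.1 hPs.2, hev2_pad2 8 8 _ hNs.1 hNs.2] at this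
  exact this

/-! ### Monotonicity (norm bound) -/

/-- ordered pairs -/
def MO := {q : ℕ × ℕ // q.1 ≤ q.2}

def MO.ad (p q : MO) : MO := ⟨(p.1.1 + q.1.1, p.1.2 + q.1.2), Nat.add_le_add p.2 q.2⟩
def MO.ml (p q : MO) : MO := ⟨(p.1.1 * q.1.1, p.1.2 * q.1.2), Nat.mul_le_mul p.2 q.2⟩
def MO.c (n : ℕ) : MO := ⟨(n, n), le_rfl⟩

theorem evG_mono (r : NR) (ty : Bool) (n2 i i1 y0 y1 Nn TM al0 al1 au0 au1 b1 b2 : ℕ)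
    (n2' i' i1' y0' y1' Nn' TM' al0' al1' au0' au1' b1' b2' : ℕ)
    (h1 : n2 ≤ n2') (h2 : i ≤ i') (h3 : i1 ≤ i1') (h4 : y0 ≤ y0') (h5 : y1 ≤ y1')
    (h6 : Nn ≤ Nn') (h7 : TM ≤ TM') (h8 : al0 ≤ al0') (h9 : al1 ≤ al1') (h10 : au0 ≤ au0')
    (h11 : au1 ≤ au1') (h12 : b1 ≤ b1') (h13 : b2 ≤ b2') :
    (fun q q' : (ℕ × ℕ) × (ℕ × ℕ) × (ℕ × ℕ) => (q.1.1 ≤ q'.1.1 ∧ q.1.2 ≤ q'.1.2) ∧
      (q.2.1.1 ≤ q'.2.1.1 ∧ q.2.1.2 ≤ q'.2.1.2) ∧ (q.2.2.1 ≤ q'.2.2.1 ∧ q.2.2.2 ≤ q'.2.2.2))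
    (evG Nat.add Nat.mul (fun k => k) r ty n2 i i1 y0 y1 Nn TM al0 al1 au0 au1 b1 b2)
    (evG Nat.add Nat.mul (fun k => k) r ty n2' i' i1' y0' y1' Nn' TM' al0' al1' au0' au1' b1'
      b2') := by
  have hf := evG_map MO.ad MO.ml MO.c Nat.add Nat.mul (fun k => k) (fun p : MO => p.1.1)
    (fun _ _ => rfl) (fun _ _ => rfl) (fun _ => rfl) r ty ⟨(n2, n2'), h1⟩ ⟨(i, i'), h2⟩
    ⟨(i1, i1'), h3⟩ ⟨(y0, y0'), h4⟩ ⟨(y1, y1'), h5⟩ ⟨(Nn, Nn'), h6⟩ ⟨(TM, TM'), h7⟩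
    ⟨(al0, al0'), h8⟩ ⟨(al1, al1'), h9⟩ ⟨(au0, au0'), h10⟩ ⟨(au1, au1'), h11⟩ ⟨(b1, b1'), h12⟩
    ⟨(b2, b2'), h13⟩
  have hs := evG_map MO.ad MO.ml MO.c Nat.add Nat.mul (fun k => k) (fun p : MO => p.1.2)
    (fun _ _ => rfl) (fun _ _ => rfl) (fun _ => rfl) r ty ⟨(n2, n2'), h1⟩ ⟨(i, i'), h2⟩
    ⟨(i1, i1'), h3⟩ ⟨(y0, y0'), h4⟩ ⟨(y1, y1'), h5⟩ ⟨(Nn, Nn'), h6⟩ ⟨(TM, TM'), h7⟩
    ⟨(al0, al0'), h8⟩ ⟨(al1, al1'), h9⟩ ⟨(au0, au0'), h10⟩ ⟨(au1, au1'), h11⟩ ⟨(b1, b1'), h12⟩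
    ⟨(b2, b2'), h13⟩
  simp only at hf hs
  rw [← hf, ← hs]
  simp only [mp3]
  generalize evG MO.ad MO.ml MO.c r ty ⟨(n2, n2'), h1⟩ ⟨(i, i'), h2⟩ ⟨(i1, i1'), h3⟩
    ⟨(y0, y0'), h4⟩ ⟨(y1, y1'), h5⟩ ⟨(Nn, Nn'), h6⟩ ⟨(TM, TM'), h7⟩
    ⟨(al0, al0'), h8⟩ ⟨(al1, al1'), h9⟩ ⟨(au0, au0'), h10⟩ ⟨(au1, au1'), h11⟩ ⟨(b1, b1'), h12⟩
    ⟨(b2, b2'), h13⟩ = w
  exact ⟨⟨w.1.1.2, w.1.2.2⟩, ⟨w.2.1.1.2, w.2.1.2.2⟩, ⟨w.2.2.1.2, w.2.2.2.2⟩⟩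

end AF06.Chk
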