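import Pool.Agent.Lib.MP_af06f6_co.Chk.Sound1

/-!
# Soundness of the checker, part 2: real inequality on a box (before the arctan estimates)
-/

set_option linter.unusedVariables false

namespace AF06.Chk

open AF06.PB

/-! ### Values of the natural polynomials -/

section vals
variable (r : NR) (x z : ℝ)

def vPp : ℝ := r.pp0 + r.pp1 * x + r.pp2 * x ^ 2 + r.pp3 * x ^ 3 + r.pp4 * z + r.pp5 * z ^ 2
def vPn : ℝ := r.pn0 + r.pn1 * x + r.pn2 * x ^ 2 + r.pn3 * x ^ 3 + r.pn4 * z + r.pn5 * z ^ 2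
def vQp : ℝ := r.qp0 + r.qp1 * x + r.qp2 * x ^ 2 + r.qp3 * x ^ 3 + r.qp4 * z + r.qp5 * z ^ 2
def vQn : ℝ := r.qn0 + r.qn1 * x + r.qn2 * x ^ 2 + r.qn3 * x ^ 3 + r.qn4 * z + r.qn5 * z ^ 2
def vFp : ℝ := r.fp0 + r.fp1 * z + r.fp2 * z ^ 2
def vFn : ℝ := r.fn0 + r.fn1 * z + r.fn2 * z ^ 2
def vSp : ℝ := r.sp0 + r.sp1 * x + r.sp2 * x ^ 2 + r.sp3 * x ^ 3
def vSn : ℝ := r.sn0 + r.sn1 * x + r.sn2 * x ^ 2 + r.sn3 * x ^ 3

end vals

/-- the real evaluation -/
noncomputable abbrev adR : ℝ → ℝ → ℝ := fun a b => a + b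
noncomputable abbrev mlR : ℝ → ℝ → ℝ := fun a b => a * b
noncomputable abbrev cR : ℕ → ℝ := fun n => (n : ℝ)

theorem c6_real (a0 a1 a2 a3 a4 a5 : ℕ) (x z D : ℝ) :
    c6 adR mlR cR a0 a1 a2 a3 a4 a5 (D * D * D) (x * D * (D * D)) (x * D * (x * D) * D)
      (x * D * (x * D) * (x * D)) (z * D * (D * D)) (z * D * (z * D) * D) =
    D ^ 3 * (a0 + a1 * x + a2 * x ^ 2 + a3 * x ^ 3 + a4 * z + a5 * z ^ 2) := by
  simp only [c6, adR, mlR, cR]; ring

theorem c4_real (a0 a1 a2 a3 : ℕ) (x D : ℝ) :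
    c4 adR mlR cR a0 a1 a2 a3 (D * D * D) (x * D * (D * D)) (x * D * (x * D) * D)
      (x * D * (x * D) * (x * D)) =
    D ^ 3 * (a0 + a1 * x + a2 * x ^ 2 + a3 * x ^ 3) := by
  simp only [c4, adR, mlR, cR]; ring

theorem c3_real (a0 a1 a2 : ℕ) (z D : ℝ) :
    c3 adR mlR cR a0 a1 a2 (D * D * D) (z * D * (D * D)) (z * D * (z * D) * D) =
    D ^ 3 * (a0 + a1 * z + a2 * z ^ 2) := by
  simp only [c3, adR, mlR, cR]; ring

/-- the three differences; `w = n2 U`, `A = aL` -/
theorem stA_real (r : NR) (ty : Bool) (x z D V N TM aL aU : ℝ) :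
    (stA adR mlR cR r ty (x * D) (z * D) D V N TM aL aU).1.1 -
      (stA adR mlR cR r ty (x * D) (z * D) D V N TM aL aU).1.2 =
        D ^ 3 * (vFp r z + vSp r x + r.K4 - (vFn r z + vSn r x)) ∧
    (stA adR mlR cR r ty (x * D) (z * D) D V N TM aL aU).2.1.1 -
      (stA adR mlR cR r ty (x * D) (z * D) D V N TM aL aU).2.1.2 =
        D ^ 7 * ((1 - x ^ 2) * (2 * 1073741824 * N * (vPp r x z - vPn r x z)
            - 2 * (TM + 1024 * 1073741824 * (x * z)) *
              (vFp r z + vSp r x + r.K4 - (vFn r z + vSn r x)))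
          + 4 * 1073741824 * 1000000 * N * x
          + N * (3373259426 * (vQp r x z + (bif ty then vSn r x else vFn r z)
                + x ^ 2 * (vQn r x z + (bif ty then vSp r x else vFp r z)))
              - 3373259427 * (vQn r x z + (bif ty then vSp r x else vFp r z)
                + x ^ 2 * (vQp r x z + (bif ty then vSn r x else vFn r z)))))
        + D ^ 6 * (aL * V) * (1 - x ^ 2) * 2 * N *
          (bif ty then (vSp r x + vFn r z - (vSn r x + vFp r z))
            else (vFp r z + vSn r x - (vFn r z + vSp r x))) ∧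
    (stA adR mlR cR r ty (x * D) (z * D) D V N TM aL aU).2.2.1 -
      (stA adR mlR cR r ty (x * D) (z * D) D V N TM aL aU).2.2.2 =
        D ^ 7 * ((1 - x ^ 2) * (2 * 1073741824 * N * (vPp r x z - vPn r x z)
            - 2 * (TM + 1024 * 1073741824 * (x * z)) *
              (vFp r z + vSp r x + r.K4 - (vFn r z + vSn r x)))
          + 4 * 1073741824 * 1000000 * N * x
          + N * (3373259426 * (vQp r x z + (bif ty then vSn r x else vFn r z)
                + x ^ 2 * (vQn r x z + (bif ty then vSp r x else vFp r z)))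
              - 3373259427 * (vQn r x z + (bif ty then vSp r x else vFp r z)
                + x ^ 2 * (vQp r x z + (bif ty then vSn r x else vFn r z)))))
        + D ^ 6 * (aU * V) * (1 - x ^ 2) * 2 * N *
          (bif ty then (vSp r x + vFn r z - (vSn r x + vFp r z))
            else (vFp r z + vSn r x - (vFn r z + vSp r x))) := by
  have hM : ∀ (h : (ℝ × ℝ) × (ℝ × ℝ) × (ℝ × ℝ) → Prop), True := fun _ => trivial
  have e1 : stA adR mlR cR r ty (x * D) (z * D) D V N TM aL aU =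
      stD adR mlR cR ty r.K4 (D * D * D) (D * D) (x * D * (x * D))
        ((4294967296000000 : ℕ) * N * (x * D * (D * D * (D * D) * (D * D))))
        ((2 : ℕ) * (TM * (D * D) + (1099511627776 : ℕ) * (x * D * (z * D))))
        ((2147483648 : ℕ) * (N * (D * D))) (N * (D * D)) ((2 : ℕ) * N * (D * V))
        (D ^ 3 * vPp r x z) (D ^ 3 * vPn r x z) (D ^ 3 * vQp r x z) (D ^ 3 * vQn r x z)
        (D ^ 3 * vFp r z) (D ^ 3 * vFn r z) (D ^ 3 * vSp r x) (D ^ 3 * vSn r x) aL aU := by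
    unfold vPp vPn vQp vQn vFp vFn vSp vSn
    rw [← c6_real, ← c6_real, ← c6_real, ← c6_real, ← c3_real, ← c3_real, ← c4_real, ← c4_real]
    rfl
  rw [e1]
  generalize vPp r x z = a1
  generalize vPn r x z = a2
  generalize vQp r x z = a3
  generalize vQn r x z = a4
  generalize vFp r z = a5
  generalize vFn r z = a6
  generalize vSp r x = a7
  generalize vSn r x = a8
  cases ty
  · simp only [stD, stE, stF, stG, adR, mlR, cR, cond_false]
    push_cast
    refine ⟨by ring, by ring, by ring⟩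
  · simp only [stD, stE, stF, stG, adR, mlR, cR, cond_true]
    push_cast
    refine ⟨by ring, by ring, by ring⟩

end AF06.Chk
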