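import Pool.Agent.Lib.MP_af06f6_co.Chk.Sound2

/-!
# Soundness of the checker, part 3: the box test gives real inequalities between the polynomials
-/

set_option linter.unusedVariables false

namespace AF06.Chk

open AF06.PB

/-- the upper chord values -/
noncomputable def up0 (a0 g i : ℕ) : ℕ := Bool.rec (motive := fun _ => ℕ) (Nat.add a0 g) 0 (Nat.beq i 0)
noncomputable def up1 (a1 g n2 i : ℕ) : ℕ :=
  Bool.rec (motive := fun _ => ℕ) (Nat.add a1 g) (Nat.div 1073741824 n2) (Nat.beq i 0)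

/-- real evaluation with natural parameters -/
noncomputable def evR (r : NR) (ty : Bool) (n2 i i1 y0 y1 Nn TM al0 al1 au0 au1 : ℕ)
    (b1 b2 : ℝ) : (ℝ × ℝ) × (ℝ × ℝ) × (ℝ × ℝ) :=
  evG adR mlR cR r ty n2 i i1 y0 y1 Nn TM al0 al1 au0 au1 b1 b2

theorem npow_eq (k j : ℕ) (h : k = j) : Nat.pow 2 k = 2 ^ j := by subst h; rfl

theorem mt3_real (r : NR) (ty : Bool) (n2 i i1 y0 y1 Nn TM al0 al1 au0 au1 : ℕ)
    (hnorm : normOK r ty = true) (h1 : n2 ≤ 1024) (h2 : i ≤ 1024) (h3 : i1 ≤ 1024)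
    (h4 : y0 ≤ 16384) (h5 : y1 ≤ 16384) (h6 : Nn ≤ 2048) (h7 : TM ≤ 1099511627776)
    (h8 : al0 ≤ 1073741824) (h9 : al1 ≤ 1073741824) (h10 : au0 ≤ 1073741824)
    (h11 : au1 ≤ 1073741824)
    (h : mt3 (evG Nat.add Nat.mul (fun k => k) r ty n2 i i1 y0 y1 Nn TM al0 al1 au0 au1
      (Nat.pow 2 272) (Nat.pow 2 2176)) = true) (b1 b2 : ℝ) (hb1 : 0 ≤ b1) (hb2 : 0 ≤ b2) :
    (evR r ty n2 i i1 y0 y1 Nn TM al0 al1 au0 au1 b1 b2).1.2 ≤
      (evR r ty n2 i i1 y0 y1 Nn TM al0 al1 au0 au1 b1 b2).1.1 ∧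
    (evR r ty n2 i i1 y0 y1 Nn TM al0 al1 au0 au1 b1 b2).2.1.2 ≤
      (evR r ty n2 i i1 y0 y1 Nn TM al0 al1 au0 au1 b1 b2).2.1.1 ∧
    (evR r ty n2 i i1 y0 y1 Nn TM al0 al1 au0 au1 b1 b2).2.2.2 ≤
      (evR r ty n2 i i1 y0 y1 Nn TM al0 al1 au0 au1 b1 b2).2.2.1 := by
  have hB1 : Nat.pow 2 272 = 2 ^ (271 + 1) := npow_eq _ _ (by norm_num)
  have hB2 : Nat.pow 2 2176 = 2 ^ ((271 + 1) * 8) := npow_eq _ _ (by norm_num)
  generalize hB1' : Nat.pow 2 272 = B1 at h hB1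
  generalize hB2' : Nat.pow 2 2176 = B2 at h hB2
  have hdeg := evP_deg r ty n2 i i1 y0 y1 Nn TM al0 al1 au0 au1
  have hN := evP_evN B1 B2 r ty n2 i i1 y0 y1 Nn TM al0 al1 au0 au1
  have hn1 := evP_evN 1 1 r ty n2 i i1 y0 y1 Nn TM al0 al1 au0 au1
  have hR := evP_ev (R := ℝ) b1 b2 r ty n2 i i1 y0 y1 Nn TM al0 al1 au0 au1
  have hR' : mp3 (PD.ev b1 b2) (evP r ty n2 i i1 y0 y1 Nn TM al0 al1 au0 au1) =
      evR r ty n2 i i1 y0 y1 Nn TM al0 al1 au0 au1 b1 b2 := hR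
  have hmono := evG_mono r ty n2 i i1 y0 y1 Nn TM al0 al1 au0 au1 1 1
    1024 1024 1024 16384 16384 2048 1099511627776 1073741824 1073741824 1073741824 1073741824
    1 1 h1 h2 h3 h4 h5 h6 h7 h8 h9 h10 h11 le_rfl le_rfl
  simp only at hmono
  rw [← hn1] at hmono
  unfold normOK at hnorm
  rw [← hN] at h
  rw [← hR']
  clear hn1 hN hR hR'
  generalize evP r ty n2 i i1 y0 y1 Nn TM al0 al1 au0 au1 = w at *
  generalize evG Nat.add Nat.mul (fun k => k) r ty 1024 1024 1024 16384 16384 2048 1099511627776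
    1073741824 1073741824 1073741824 1073741824 1 1 = v at *
  obtain ⟨m1, h⟩ := andb_spec _ _ h
  obtain ⟨m2, m3⟩ := andb_spec _ _ h
  obtain ⟨n1, hnorm⟩ := andb_spec _ _ hnorm
  obtain ⟨n2', n3⟩ := andb_spec _ _ hnorm
  have blt : ∀ a b : ℕ, Nat.blt (Nat.add a b) (Nat.pow 2 271) = true → a + b < 2 ^ 271 := by
    intro a b hab
    rw [Nat.blt_eq, npow_eq 271 271 rfl] at hab
    exact hab
  have n1' := blt _ _ n1
  have n2'' := blt _ _ n2'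
  have n3' := blt _ _ n3
  simp only [mp3, Prod.mk.injEq] at hdeg hmono ⊢
  simp only [mp3] at m1 m2 m3
  obtain ⟨⟨⟨d1, d2⟩, d3, d4⟩, ⟨⟨d5, d6⟩, d7, d8⟩, ⟨d9, d10⟩, d11, d12⟩ := hdeg
  obtain ⟨⟨o1, o2⟩, ⟨o3, o4⟩, o5, o6⟩ := hmono
  refine ⟨?_, ?_, ?_⟩
  · exact mask_real w.1.1 w.1.2 (by omega) (by omega) (by omega) (by omega) B1 B2 hB1 hB2 m1
      (lt_of_le_of_lt (Nat.add_le_add o1 o2) n1') b1 b2 hb1 hb2
  · exact mask_real w.2.1.1 w.2.1.2 (by omega) (by omega) (by omega) (by omega) B1 B2 hB1 hB2 m2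
      (lt_of_le_of_lt (Nat.add_le_add o3 o4) n2'') b1 b2 hb1 hb2
  · exact mask_real w.2.2.1 w.2.2.2 (by omega) (by omega) (by omega) (by omega) B1 B2 hB1 hB2 m3
      (lt_of_le_of_lt (Nat.add_le_add o5 o6) n3') b1 b2 hb1 hb2

end AF06.Chk
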