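import Pool.Agent.Lib.MP_af06f6_co.Chk.Defs

/-!
# Soundness of the checker, part 4: arctan tables and estimates
-/

set_option linter.unusedVariables false

namespace AF06.Chk

open Real

/-! ### Tables -/

/-- `⌊2^60 π/4⌋` from 20 digits of `π` -/
theorem pi4lo : (905502432259640355 : ℝ) / 1152921504606846976 ≤ π / 4 := by
  have h1 := Real.pi_gt_d20
  have h2 := Real.pi_lt_d20
  norm_num at h1 h2 ⊢
  linarith

theorem pi4hi : π / 4 ≤ (905502432259640391 : ℝ) / 1152921504606846976 := by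
  have h1 := Real.pi_gt_d20
  have h2 := Real.pi_lt_d20
  norm_num at h1 h2 ⊢
  linarith

theorem pi_lo : (3373259426 : ℝ) ≤ 1073741824 * π := by
  have h1 := Real.pi_gt_d20
  norm_num at h1 ⊢
  linarith

theorem pi_hi : 1073741824 * π ≤ (3373259427 : ℝ) := by
  have h1 := Real.pi_lt_d20
  norm_num at h1 ⊢
  linarith

/-- check of `tabA k` -/
def okA (k : ℕ) : Bool :=
  if 2 * k ≤ 1024 then
    Atan.atanChk k 1024 12 ((tabA k : ℤ) * 1073741824) (((tabA k : ℤ) + 1) * 1073741824)
      1152921504606846976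
  else
    Atan.atanChk (1024 - k) (1024 + k) 9
      (905502432259640391 - ((tabA k : ℤ) + 1) * 1073741824)
      (905502432259640355 - (tabA k : ℤ) * 1073741824) 1152921504606846976

/-- check of `tabT m` -/
def okT (m : ℕ) : Bool :=
  if 2 * m ≤ 32 then
    Atan.atanChk m 32 13 0 (((tabT m : ℤ) + 32 * m * 1073741824) * 1073741824)
      (1152921504606846976 * (1024 + m * m))
  else
    Atan.atanChk (32 - m) (32 + m) 10
      (905502432259640391 * (1024 + m * m) - ((tabT m : ℤ) + 32 * m * 1073741824) * 1073741824)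
      (1152921504606846976 * (1024 + m * m)) (1152921504606846976 * (1024 + m * m))

def allb (f : ℕ → Bool) : ℕ → Bool
  | 0 => true
  | n + 1 => f n && allb f n

theorem allb_spec (f : ℕ → Bool) (n : ℕ) (h : allb f n = true) : ∀ k < n, f k = true := by
  induction n with
  | zero => intro k hk; omega
  | succ n ih =>
    simp only [allb, Bool.and_eq_true] at h
    intro k hk
    rcases Nat.lt_succ_iff_lt_or_eq.1 hk with h1 | rfl
    · exact ih h.2 k h1
    · exact h.1

theorem okA_all : allb okA 1025 = true := by decide +kernel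

theorem okT_all : allb okT 33 = true := by decide +kernel

theorem tabT_le_all : allb (fun m => Nat.ble (tabT m) 1099511627776) 33 = true := by
  decide +kernel

theorem shift_one (c : ℝ) (hc : 0 < c) :
    arctan c = π / 4 - arctan ((1 - c) / (1 + c)) := by
  rw [Atan.arctan_shift 1 c (by linarith), arctan_one, one_mul,
    show (c - 1) / (1 + c) = -((1 - c) / (1 + c)) by ring, arctan_neg]
  ring

theorem tabA_ok (k : ℕ) (hk : k ≤ 1024) :
    (tabA k : ℝ) ≤ 1073741824 * arctan ((k : ℝ) / 1024) ∧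
      1073741824 * arctan ((k : ℝ) / 1024) ≤ (tabA k : ℝ) + 1 := by
  have h := allb_spec _ _ okA_all k (by omega)
  unfold okA at h
  split at h
  · obtain ⟨h1, h2⟩ := Atan.atan_of_chk _ _ _ _ _ _ h
    push_cast at h1 h2
    constructor <;> linarith
  · rename_i hk2
    obtain ⟨h1, h2⟩ := Atan.atan_of_chk _ _ _ _ _ _ h
    have hk0 : (0 : ℝ) < k := by
      have : 0 < k := by omega
      exact_mod_cast this
    have h3 : arctan ((k : ℝ) / 1024) = π / 4 -
        arctan (((1024 - k : ℕ) : ℝ) / ((1024 + k : ℕ) : ℝ)) := by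
      rw [shift_one _ (by positivity)]
      congr 2
      rw [Nat.cast_sub hk, Nat.cast_add]
      push_cast
      field_simp
    rw [h3]
    have p1 := pi4lo
    have p2 := pi4hi
    push_cast at h1 h2 ⊢
    constructor <;> linarith

theorem tabT_ok (m : ℕ) (hm : m ≤ 32) :
    arctan ((m : ℝ) / 32) ≤
      ((tabT m : ℝ) + 32 * m * 1073741824) / (1073741824 * (1024 + (m : ℝ) * m)) := by
  have h := allb_spec _ _ okT_all m (by omega)
  have hN : (0 : ℝ) < 1024 + (m : ℝ) * m := by positivity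
  unfold okT at h
  split at h
  · obtain ⟨h1, h2⟩ := Atan.atan_of_chk _ _ _ _ _ _ h
    push_cast at h1 h2
    refine h2.trans (le_of_eq ?_)
    rw [div_eq_div_iff (by positivity) (by positivity)]
    ring
  · rename_i hk2
    obtain ⟨h1, h2⟩ := Atan.atan_of_chk _ _ _ _ _ _ h
    have hk0 : (0 : ℝ) < m := by
      have : 0 < m := by omega
      exact_mod_cast this
    have h3 : arctan ((m : ℝ) / 32) = π / 4 -
        arctan (((32 - m : ℕ) : ℝ) / ((32 + m : ℕ) : ℝ)) := by
      rw [shift_one _ (by positivity)]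
      congr 2
      rw [Nat.cast_sub hm, Nat.cast_add]
      push_cast
      field_simp
    rw [h3]
    have p2 := pi4hi
    push_cast at h1 h2 ⊢
    have e1 : (905502432259640391 * (1024 + (m : ℝ) * m) -
        ((tabT m : ℝ) + 32 * m * 1073741824) * 1073741824) /
        (1152921504606846976 * (1024 + (m : ℝ) * m)) =
        905502432259640391 / 1152921504606846976 -
        ((tabT m : ℝ) + 32 * m * 1073741824) / (1073741824 * (1024 + (m : ℝ) * m)) := by
      field_simp
      ring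
    rw [e1] at h1
    linarith

theorem tabT_le (m : ℕ) (hm : m ≤ 32) : tabT m ≤ 1099511627776 := by
  have h := allb_spec _ _ tabT_le_all m (by omega)
  exact Nat.le_of_ble_eq_true h

theorem tabA_le (k : ℕ) (hk : k ≤ 1024) : tabA k ≤ 843400000 := by
  have h := (tabA_ok k hk).1
  have h1 : arctan ((k : ℝ) / 1024) ≤ π / 4 := by
    rw [← arctan_one]
    apply arctan_strictMono.monotone
    have : (k : ℝ) ≤ 1024 := by exact_mod_cast hk
    rw [div_le_one (by norm_num)]
    exact this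
  have h2 := pi4hi
  have : (tabA k : ℝ) ≤ 843400000 := by
    have : 1073741824 * arctan ((k : ℝ) / 1024) ≤ 1073741824 * (π / 4) := by linarith
    linarith
  exact_mod_cast this

/-! ### Chord and tangent estimates -/

theorem arctan_le_self' (v : ℝ) (hv : 0 ≤ v) : arctan v ≤ v := by
  have := Atan.le_atS 0 v hv
  simp only [Atan.atS, Nat.mul_zero, zero_add, Finset.range_one, Finset.sum_singleton] at this
  norm_num at this
  exact this

theorem arctan_ge_frac (v : ℝ) (hv : 0 ≤ v) : v / (1 + v ^ 2) ≤ arctan v := by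
  have h := Atan.mono_aux (fun x => arctan x - x / (1 + x ^ 2))
    (fun x => 1 / (1 + x ^ 2) - (1 * (1 + x ^ 2) - x * (2 * x)) / (1 + x ^ 2) ^ 2)
    (fun x => by
      have h1 : (1 + x ^ 2) ≠ 0 := by positivity
      have h2 : HasDerivAt (fun x : ℝ => 1 + x ^ 2) (2 * x) x := by
        have := (hasDerivAt_pow 2 x).const_add 1
        simpa using this
      exact (hasDerivAt_arctan x).fun_sub ((hasDerivAt_id x).fun_div h2 h1))
    (fun x => by
      have h1 : (0 : ℝ) < 1 + x ^ 2 := by positivity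
      have e : 1 / (1 + x ^ 2) - (1 * (1 + x ^ 2) - x * (2 * x)) / (1 + x ^ 2) ^ 2 =
          2 * x ^ 2 / (1 + x ^ 2) ^ 2 := by
        field_simp
        ring
      rw [e]
      positivity) v hv
  simp only [arctan_zero, zero_div, sub_zero] at h
  linarith

theorem arctan_tangent (u c : ℝ) (hu : 0 ≤ u) (hc : 0 ≤ c) :
    arctan u ≤ arctan c + (u - c) / (1 + c ^ 2) := by
  have hcu : 0 ≤ c * u := mul_nonneg hc hu
  rw [Atan.arctan_shift c u (by linarith)]
  have hc2 : 0 < 1 + c ^ 2 := by positivity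
  have hcu1 : 0 < 1 + c * u := by linarith
  rcases le_total c u with h | h
  · have h1 : 0 ≤ (u - c) / (1 + c * u) := div_nonneg (by linarith) hcu1.le
    have h2 := arctan_le_self' _ h1
    have h3 : (u - c) / (1 + c * u) ≤ (u - c) / (1 + c ^ 2) :=
      div_le_div_of_nonneg_left (by linarith) hc2 (by nlinarith)
    linarith
  · have e1 : (u - c) / (1 + c * u) = -((c - u) / (1 + c * u)) := by ring
    have h1 : 0 ≤ (c - u) / (1 + c * u) := div_nonneg (by linarith) hcu1.le
    have h2 := arctan_ge_frac _ h1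
    rw [e1, arctan_neg]
    have h3 : (c - u) / (1 + c ^ 2) ≤ ((c - u) / (1 + c * u)) / (1 + ((c - u) / (1 + c * u)) ^ 2) := by
      have e2 : ((c - u) / (1 + c * u)) / (1 + ((c - u) / (1 + c * u)) ^ 2) =
          (c - u) * (1 + c * u) / ((1 + c ^ 2) * (1 + u ^ 2)) := by
        have : 1 + ((c - u) / (1 + c * u)) ^ 2 = ((1 + c ^ 2) * (1 + u ^ 2)) / (1 + c * u) ^ 2 := by
          field_simp
          ring
        rw [this]
        field_simp
      rw [e2, div_le_div_iff₀ hc2 (by positivity)]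
      have h4 : 0 ≤ (c - u) := by linarith
      have h5 : 1 + u ^ 2 ≤ 1 + c * u := by nlinarith
      have h6 := mul_le_mul_of_nonneg_left h5 (mul_nonneg h4 hc2.le)
      nlinarith
    have e3 : (u - c) / (1 + c ^ 2) = -((c - u) / (1 + c ^ 2)) := by ring
    rw [e3]
    linarith

/-- upper bound of `arctan u` used for `ω` -/
theorem omega_bound (m : ℕ) (hm : m ≤ 32) (u : ℝ) (hu : 0 ≤ u) :
    arctan u ≤ ((tabT m : ℝ) + 1024 * 1073741824 * u) / (1073741824 * (1024 + (m : ℝ) * m)) := by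
  have h1 := arctan_tangent u ((m : ℝ) / 32) hu (by positivity)
  have h2 := tabT_ok m hm
  have hN : (0 : ℝ) < 1024 + (m : ℝ) * m := by positivity
  have e1 : (u - (m : ℝ) / 32) / (1 + ((m : ℝ) / 32) ^ 2) =
      (1024 * u - 32 * m) / (1024 + (m : ℝ) * m) := by
    field_simp
    ring
  rw [e1] at h1
  have e2 : ((tabT m : ℝ) + 1024 * 1073741824 * u) / (1073741824 * (1024 + (m : ℝ) * m)) =
      ((tabT m : ℝ) + 32 * m * 1073741824) / (1073741824 * (1024 + (m : ℝ) * m)) +
      (1024 * u - 32 * m) / (1024 + (m : ℝ) * m) := by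
    field_simp
    ring
  rw [e2]
  linarith

/-- concavity: weights `1/(1+b)`, `b/(1+b)` -/
theorem arctan_chord_lo (a c b : ℝ) (ha : 0 ≤ a) (hc : 0 ≤ c) (hb : 0 ≤ b) :
    (arctan a + arctan c * b) / (1 + b) ≤ arctan ((a + c * b) / (1 + b)) := by
  have hb1 : 0 < 1 + b := by linarith
  set ρ := (a + c * b) / (1 + b) with hρ
  have hρ0 : 0 ≤ ρ := by positivity
  have h1 := arctan_tangent a ρ ha hρ0
  have h2 := arctan_tangent c ρ hc hρ0
  rw [div_le_iff₀ hb1]
  have h3 : (a - ρ) / (1 + ρ ^ 2) + (c - ρ) / (1 + ρ ^ 2) * b = 0 := by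
    have : (a - ρ) + (c - ρ) * b = 0 := by
      have : ρ * (1 + b) = a + c * b := by rw [hρ]; field_simp
      linarith
    have h4 : (a - ρ) / (1 + ρ ^ 2) + (c - ρ) / (1 + ρ ^ 2) * b =
      ((a - ρ) + (c - ρ) * b) / (1 + ρ ^ 2) := by ring
    rw [h4, this, zero_div]
  have h5 := mul_le_mul_of_nonneg_right h2 hb
  linarith

/-- If `arctan x + M x²/2` has a nondecreasing derivative on `[a, c]`. -/
theorem arctan_chord_up (a c b M : ℝ) (ha : 0 ≤ a) (hac : a ≤ c) (hb : 0 ≤ b)
    (hM : ∀ s t : ℝ, a ≤ s → s ≤ t → t ≤ c → s + t ≤ M * ((1 + s ^ 2) * (1 + t ^ 2))) :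
    arctan ((a + c * b) / (1 + b)) ≤ (arctan a + arctan c * b) / (1 + b) + M / 8 * (c - a) ^ 2 := by
  have hb1 : 0 < 1 + b := by linarith
  have hder : ∀ x : ℝ, HasDerivAt (fun x : ℝ => arctan x + M / 2 * x ^ 2)
      (1 / (1 + x ^ 2) + M * x) x := by
    intro x
    have h1 := (hasDerivAt_arctan x).fun_add ((hasDerivAt_pow 2 x).const_mul (M / 2))
    refine h1.congr_deriv ?_
    norm_num
    ring
  have hconv : ConvexOn ℝ (Set.Icc a c) (fun x : ℝ => arctan x + M / 2 * x ^ 2) := by
    refine MonotoneOn.convexOn_of_deriv (convex_Icc a c) ?_ ?_ ?_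
    · exact (continuous_arctan.add (continuous_const.mul (continuous_pow 2))).continuousOn
    · exact fun x _ => (hder x).differentiableAt.differentiableWithinAt
    · intro s hs t ht hst
      rw [interior_Icc] at hs ht
      rw [(hder s).deriv, (hder t).deriv]
      have h1 := hM s t hs.1.le hst ht.2.le
      have hs1 : 0 < 1 + s ^ 2 := by positivity
      have ht1 : 0 < 1 + t ^ 2 := by positivity
      have e : (1 / (1 + t ^ 2) + M * t) - (1 / (1 + s ^ 2) + M * s) =
          (t - s) * (M * ((1 + s ^ 2) * (1 + t ^ 2)) - (s + t)) / ((1 + s ^ 2) * (1 + t ^ 2)) := by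
        field_simp
        ring
      have : 0 ≤ (1 / (1 + t ^ 2) + M * t) - (1 / (1 + s ^ 2) + M * s) := by
        rw [e]
        exact div_nonneg (mul_nonneg (by linarith) (by linarith)) (by positivity)
      linarith
  have h2 := hconv.2 (Set.left_mem_Icc.2 hac) (Set.right_mem_Icc.2 hac)
    (show (0 : ℝ) ≤ 1 / (1 + b) by positivity) (show (0 : ℝ) ≤ b / (1 + b) by positivity)
    (by field_simp)
  simp only [smul_eq_mul] at h2
  have e1 : 1 / (1 + b) * a + b / (1 + b) * c = (a + c * b) / (1 + b) := by ring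
  rw [e1] at h2
  have e2 : 1 / (1 + b) * (arctan a + M / 2 * a ^ 2) + b / (1 + b) * (arctan c + M / 2 * c ^ 2) -
      M / 2 * ((a + c * b) / (1 + b)) ^ 2 = (arctan a + arctan c * b) / (1 + b) +
      M / 2 * (b / (1 + b) ^ 2) * (c - a) ^ 2 := by
    field_simp
    ring
  have h3 : b / (1 + b) ^ 2 ≤ 1 / 4 := by
    rw [div_le_div_iff₀ (by positivity) (by norm_num)]
    nlinarith [sq_nonneg (1 - b)]
  have hM0 : 0 ≤ M * (c - a) ^ 2 := by
    rcases hac.eq_or_lt with rfl | hlt
    · simp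
    · have := hM c c hac le_rfl le_rfl
      have hc0 : 0 < c := by linarith
      have : 0 ≤ M := by
        by_contra hneg
        push Not at hneg
        have : M * ((1 + c ^ 2) * (1 + c ^ 2)) < 0 := mul_neg_of_neg_of_pos hneg (by positivity)
        linarith
      positivity
  have h4 : M / 2 * (b / (1 + b) ^ 2) * (c - a) ^ 2 ≤ M / 8 * (c - a) ^ 2 := by
    have := mul_le_mul_of_nonneg_left h3 hM0
    linarith
  linarith

theorem M_const (s t : ℝ) (hs : 0 ≤ s) (ht : 0 ≤ t) :
    s + t ≤ 13 / 20 * ((1 + s ^ 2) * (1 + t ^ 2)) := by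
  have e : (1 + s ^ 2) * (1 + t ^ 2) = (1 - s * t) ^ 2 + (s + t) ^ 2 := by ring
  rw [e]
  set w := s + t with hw
  have hw0 : 0 ≤ w := by linarith
  have hst : s * t ≤ w ^ 2 / 4 := by rw [hw]; nlinarith [sq_nonneg (s - t)]
  rcases le_total (w ^ 2 / 4) 1 with h | h
  · have h1 : (1 - w ^ 2 / 4) ^ 2 ≤ (1 - s * t) ^ 2 :=
      pow_le_pow_left₀ (by linarith) (by linarith) 2
    have h2 : w ≤ 13 / 20 * ((1 - w ^ 2 / 4) ^ 2 + w ^ 2) := by
      have e2 : (1 - w ^ 2 / 4) ^ 2 + w ^ 2 = (1 + w ^ 2 / 4) ^ 2 := by ring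
      rw [e2]
      -- 13/20 (1 + w²/4)² ≥ w ; minimum near w = 1.1547
      have h3 : (1 + w ^ 2 / 4) ≥ 4 / 3 + (577 / 1000) * (w - 2 * (577 / 1000)) +
          (1 / 4) * (w - 2 * (577 / 1000)) ^ 2 - 1 / 1000 := by
        nlinarith
      nlinarith [sq_nonneg (w - 2 * (577 / 1000)), sq_nonneg (w ^ 2 / 4 - 1 / 3),
        sq_nonneg (w - 1), sq_nonneg (w ^ 2 - 4 / 3), sq_nonneg (w ^ 2 / 4 + 1 - 2 / 3 * w)]
    nlinarith
  · have h2 : 2 ≤ w := by nlinarith
    nlinarith [sq_nonneg (1 - s * t)]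

theorem M_lin (c s t : ℝ) (hs : 0 ≤ s) (ht : 0 ≤ t) (hsc : s ≤ c) (htc : t ≤ c) :
    s + t ≤ 2 * c * ((1 + s ^ 2) * (1 + t ^ 2)) := by
  have hc : 0 ≤ c := hs.trans hsc
  have h1 : 1 ≤ (1 + s ^ 2) * (1 + t ^ 2) := by nlinarith [sq_nonneg s, sq_nonneg t, sq_nonneg (s * t)]
  nlinarith

end AF06.Chk
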