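import Pool.Agent.Lib.MP_af06f6_co.Chk.Sound3
import Pool.Agent.Lib.MP_af06f6_co.Chk.Sound4

/-!
# Soundness of the checker, part 5: a successful box test proves the inequality on the box
-/

set_option linter.unusedVariables false

namespace AF06.Chk

open AF06.PB Real

/-- `10^6 (1-x²) E` with `arctan ρ` in place of the angle: `ρ = z/x` (`ty = false`) or
`ρ = x/z` (`ty = true`) -/
noncomputable def Gf (r : NR) (ty : Bool) (x z ρ : ℝ) : ℝ :=
  2 * 1000000 * x + (1 - x ^ 2) * ((vPp r x z - vPn r x z)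
    + π / 2 * (vQp r x z - vQn r x z
        - (bif ty then vSp r x - vSn r x else vFp r z - vFn r z))
    + (bif ty then (vSp r x - vSn r x) - (vFp r z - vFn r z)
        else (vFp r z - vFn r z) - (vSp r x - vSn r x)) * arctan ρ
    - ((vFp r z - vFn r z) + (vSp r x - vSn r x) + r.K4) * arctan (x * z))

/-- the abstract final step -/
theorem final_step (x N TM Pd Bd Qp Qn Rd AL AU A u om : ℝ) (hx0 : 0 ≤ x) (hx1 : x ≤ 1)
    (hN : 0 < N) (hB : 0 ≤ Bd) (hQp : 0 ≤ Qp) (hQn : 0 ≤ Qn)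
    (hom : om ≤ (TM + 1024 * 1073741824 * u) / (1073741824 * N))
    (hAL : AL ≤ 1073741824 * A) (hAU : 1073741824 * A ≤ AU)
    (h1 : 0 ≤ (1 - x ^ 2) * (2 * 1073741824 * N * Pd - 2 * (TM + 1024 * 1073741824 * u) * Bd)
          + 4 * 1073741824 * 1000000 * N * x
          + N * (3373259426 * (Qp + x ^ 2 * Qn) - 3373259427 * (Qn + x ^ 2 * Qp))
          + AL * (1 - x ^ 2) * 2 * N * Rd)
    (h2 : 0 ≤ (1 - x ^ 2) * (2 * 1073741824 * N * Pd - 2 * (TM + 1024 * 1073741824 * u) * Bd)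
          + 4 * 1073741824 * 1000000 * N * x
          + N * (3373259426 * (Qp + x ^ 2 * Qn) - 3373259427 * (Qn + x ^ 2 * Qp))
          + AU * (1 - x ^ 2) * 2 * N * Rd) :
    0 ≤ 2 * 1000000 * x + (1 - x ^ 2) * (Pd + π / 2 * (Qp - Qn) + Rd * A - Bd * om) := by
  have hx2 : 0 ≤ 1 - x ^ 2 := by nlinarith
  have hplo := pi_lo
  have hphi := pi_hi
  -- the actual value of `A`
  have h3 : 0 ≤ (1 - x ^ 2) * (2 * 1073741824 * N * Pd - 2 * (TM + 1024 * 1073741824 * u) * Bd)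
          + 4 * 1073741824 * 1000000 * N * x
          + N * (3373259426 * (Qp + x ^ 2 * Qn) - 3373259427 * (Qn + x ^ 2 * Qp))
          + (1073741824 * A) * (1 - x ^ 2) * 2 * N * Rd := by
    rcases le_total 0 Rd with hR | hR
    · have : AL * ((1 - x ^ 2) * 2 * N * Rd) ≤ (1073741824 * A) * ((1 - x ^ 2) * 2 * N * Rd) :=
        mul_le_mul_of_nonneg_right hAL (by positivity)
      linarith
    · have : AU * ((1 - x ^ 2) * 2 * N * (-Rd)) ≥ (1073741824 * A) * ((1 - x ^ 2) * 2 * N * (-Rd)) :=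
        mul_le_mul_of_nonneg_right hAU (by
          have : 0 ≤ -Rd := by linarith
          positivity)
      linarith
  -- `π`
  have h4 : N * (3373259426 * (Qp + x ^ 2 * Qn) - 3373259427 * (Qn + x ^ 2 * Qp)) ≤
      N * (1073741824 * π) * (1 - x ^ 2) * (Qp - Qn) := by
    have a1 : 3373259426 * (Qp + x ^ 2 * Qn) ≤ (1073741824 * π) * (Qp + x ^ 2 * Qn) :=
      mul_le_mul_of_nonneg_right hplo (by positivity)
    have a2 : (1073741824 * π) * (Qn + x ^ 2 * Qp) ≤ 3373259427 * (Qn + x ^ 2 * Qp) :=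
      mul_le_mul_of_nonneg_right hphi (by positivity)
    have a3 : 3373259426 * (Qp + x ^ 2 * Qn) - 3373259427 * (Qn + x ^ 2 * Qp) ≤
      (1073741824 * π) * ((1 - x ^ 2) * (Qp - Qn)) := by nlinarith
    have := mul_le_mul_of_nonneg_left a3 hN.le
    linarith
  -- `ω`
  have h5 : 1073741824 * N * om ≤ TM + 1024 * 1073741824 * u := by
    rw [le_div_iff₀ (by positivity)] at hom
    linarith
  have h6 : (1 - x ^ 2) * (2 * (1073741824 * N * om) * Bd) ≤
      (1 - x ^ 2) * (2 * (TM + 1024 * 1073741824 * u) * Bd) := by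
    refine mul_le_mul_of_nonneg_left ?_ hx2
    refine mul_le_mul_of_nonneg_right ?_ hB
    linarith
  have h7 : 0 ≤ (2 * 1073741824 * N) *
      (2 * 1000000 * x + (1 - x ^ 2) * (Pd + π / 2 * (Qp - Qn) + Rd * A - Bd * om)) := by
    have e : (2 * 1073741824 * N) *
      (2 * 1000000 * x + (1 - x ^ 2) * (Pd + π / 2 * (Qp - Qn) + Rd * A - Bd * om)) =
      (1 - x ^ 2) * (2 * 1073741824 * N * Pd) - (1 - x ^ 2) * (2 * (1073741824 * N * om) * Bd)
       + 4 * 1073741824 * 1000000 * N * x + N * (1073741824 * π) * (1 - x ^ 2) * (Qp - Qn)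
       + (1073741824 * A) * (1 - x ^ 2) * 2 * N * Rd := by ring
    rw [e]
    linarith
  exact nonneg_of_mul_nonneg_right h7 (by positivity)

theorem v_nonneg (a0 a1 a2 a3 a4 a5 : ℕ) (x z : ℝ) (hx : 0 ≤ x) (hz : 0 ≤ z) :
    0 ≤ (a0 : ℝ) + a1 * x + a2 * x ^ 2 + a3 * x ^ 3 + a4 * z + a5 * z ^ 2 := by positivity

/-- real inequality on the box in the parameters `b1, b2` -/
theorem box_param (r : NR) (ty : Bool) (n2 i y0 y1 m al0 al1 au0 au1 : ℕ)
    (hnorm : normOK r ty = true) (hn0 : 0 < n2) (h1 : n2 ≤ 1024) (h2 : i + 1 ≤ n2)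
    (h4 : y0 ≤ 16384) (h5 : y1 ≤ 16384) (hm : m ≤ 32)
    (h8 : al0 ≤ 1073741824) (h9 : al1 ≤ 1073741824) (h10 : au0 ≤ 1073741824)
    (h11 : au1 ≤ 1073741824)
    (h : mt3 (evG Nat.add Nat.mul (fun k => k) r ty n2 i (Nat.add i 1) y0 y1
      (Nat.add 1024 (Nat.mul m m)) (tabT m) al0 al1 au0 au1
      (Nat.pow 2 272) (Nat.pow 2 2176)) = true) (b1 b2 : ℝ) (hb1 : 0 ≤ b1) (hb2 : 0 ≤ b2)
    (y ρ : ℝ) (hy : y = (y0 + y1 * b1) / (16384 * (1 + b1)))
    (hρ : ρ = (i + (i + 1) * b2) / (n2 * (1 + b2)))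
    (hAL : (al0 + al1 * b2) / (1 + b2) ≤ 1073741824 * arctan ρ)
    (hAU : 1073741824 * arctan ρ ≤ (au0 + au1 * b2) / (1 + b2)) :
    0 ≤ Gf r ty (bif ty then ρ * y else y) (bif ty then y else ρ * y) ρ := by
  have hn0' : (0 : ℝ) < n2 := by exact_mod_cast hn0
  have hb1' : 0 < 1 + b1 := by linarith
  have hb2' : 0 < 1 + b2 := by linarith
  have hmm : m * m ≤ 1024 := by nlinarith
  have hN6 : Nat.add 1024 (Nat.mul m m) ≤ 2048 := by
    change 1024 + m * m ≤ 2048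
    omega
  obtain ⟨q1, q2, q3⟩ := mt3_real r ty n2 i (Nat.add i 1) y0 y1 (Nat.add 1024 (Nat.mul m m))
    (tabT m) al0 al1 au0 au1 hnorm h1 (by omega) (by change i + 1 ≤ 1024; omega) h4 h5 hN6
    (tabT_le m hm) h8 h9 h10 h11 h b1 b2 hb1 hb2
  -- geometry
  have hy0 : 0 ≤ y := by rw [hy]; positivity
  have hρ0 : 0 ≤ ρ := by rw [hρ]; positivity
  have hy1 : y ≤ 1 := by
    rw [hy, div_le_one (by positivity)]
    have a : (y0 : ℝ) ≤ 16384 := by exact_mod_cast h4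
    have b : (y1 : ℝ) ≤ 16384 := by exact_mod_cast h5
    nlinarith
  have hρ1 : ρ ≤ 1 := by
    rw [hρ, div_le_one (by positivity)]
    have a : (i : ℝ) + 1 ≤ n2 := by exact_mod_cast h2
    nlinarith
  set U : ℝ := 16384 * (1 + b1) with hU
  set W : ℝ := n2 * (1 + b2) with hW
  have hU0 : 0 < U := by positivity
  have hW0 : 0 < W := by positivity
  set D : ℝ := U * W with hD
  have hD0 : 0 < D := by positivity
  have hYU : (y0 : ℝ) + y1 * b1 = y * U := by rw [hy]; field_simp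
  have hRW : (i : ℝ) + (i + 1) * b2 = ρ * W := by rw [hρ]; field_simp
  set x : ℝ := bif ty then ρ * y else y with hx
  set z : ℝ := bif ty then y else ρ * y with hz
  have hx0 : 0 ≤ x := by rw [hx]; cases ty <;> simp <;> positivity
  have hz0 : 0 ≤ z := by rw [hz]; cases ty <;> simp <;> positivity
  have hx1 : x ≤ 1 := by
    rw [hx]; cases ty
    · exact hy1
    · exact mul_le_one₀ hρ1 hy0 hy1
  have hev : evR r ty n2 i (Nat.add i 1) y0 y1 (Nat.add 1024 (Nat.mul m m)) (tabT m) al0 al1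
      au0 au1 b1 b2 = stA adR mlR cR r ty (x * D) (z * D) D (n2 * U)
        ((Nat.add 1024 (Nat.mul m m) : ℕ) : ℝ) (tabT m) (al0 + al1 * b2) (au0 + au1 * b2) := by
    have e1 : evR r ty n2 i (Nat.add i 1) y0 y1 (Nat.add 1024 (Nat.mul m m)) (tabT m) al0 al1
      au0 au1 b1 b2 = st0 adR mlR cR r ty (y0 + y1 * b1) (((16384 : ℕ) : ℝ) * (((1 : ℕ) : ℝ) + b1))
        (i + ((Nat.add i 1 : ℕ) : ℝ) * b2)
        (n2 * (((1 : ℕ) : ℝ) + b2)) (n2 * (((16384 : ℕ) : ℝ) * (((1 : ℕ) : ℝ) + b1)))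
        ((Nat.add 1024 (Nat.mul m m) : ℕ) : ℝ) (tabT m) (al0 + al1 * b2) (au0 + au1 * b2) := rfl
    have e2 : ((Nat.add i 1 : ℕ) : ℝ) = i + 1 := by
      change ((i + 1 : ℕ) : ℝ) = i + 1
      push_cast; ring
    have e3 : (((16384 : ℕ) : ℝ) * (((1 : ℕ) : ℝ) + b1)) = U := by rw [hU]; push_cast; ring
    have e4 : (n2 * (((1 : ℕ) : ℝ) + b2)) = W := by rw [hW]; push_cast; ring
    rw [e1, e2, e3, e4, hYU, hRW, hD, hx, hz]
    cases ty
    · simp only [st0, cond_false, adR, mlR]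
      rw [show y * U * W = y * (U * W) by ring, show ρ * W * (y * U) = ρ * y * (U * W) by ring]
    · simp only [st0, cond_true, adR, mlR]
      rw [show y * U * W = y * (U * W) by ring, show ρ * W * (y * U) = ρ * y * (U * W) by ring]
  rw [hev] at q1 q2 q3
  obtain ⟨s1, s2, s3⟩ := stA_real r ty x z D (n2 * U)
    ((Nat.add 1024 (Nat.mul m m) : ℕ) : ℝ) (tabT m) (al0 + al1 * b2) (au0 + au1 * b2)
  have hNc : ((Nat.add 1024 (Nat.mul m m) : ℕ) : ℝ) = 1024 + (m : ℝ) * m := by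
    change ((1024 + m * m : ℕ) : ℝ) = _
    push_cast; ring
  rw [hNc] at s1 s2 s3 q1 q2 q3
  set N : ℝ := 1024 + (m : ℝ) * m with hNN
  have hN0 : 0 < N := by positivity
  have hV : ∀ a : ℝ, a * (n2 * U) = D * (a / (1 + b2)) := by
    intro a
    rw [hD, hW]
    field_simp
  rw [hV] at s2 s3
  -- B ≥ 0
  have hB : 0 ≤ vFp r z + vSp r x + r.K4 - (vFn r z + vSn r x) := by
    have : 0 ≤ D ^ 3 * (vFp r z + vSp r x + r.K4 - (vFn r z + vSn r x)) := by
      rw [← s1]; linarith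
    exact nonneg_of_mul_nonneg_right this (by positivity)
  have hD7 : (0 : ℝ) < D ^ 7 := by positivity
  have g2 := sub_nonneg.2 q2
  have g3 := sub_nonneg.2 q3
  rw [s2] at g2
  rw [s3] at g3
  have hPF : 0 ≤ vFp r z := by unfold vFp; positivity
  have hNF : 0 ≤ vFn r z := by unfold vFn; positivity
  have hPS : 0 ≤ vSp r x := by unfold vSp; positivity
  have hNS : 0 ≤ vSn r x := by unfold vSn; positivity
  have hPQ : 0 ≤ vQp r x z := v_nonneg _ _ _ _ _ _ _ _ hx0 hz0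
  have hNQ : 0 ≤ vQn r x z := v_nonneg _ _ _ _ _ _ _ _ hx0 hz0
  set Qp : ℝ := vQp r x z + (bif ty then vSn r x else vFn r z) with hQp
  set Qn : ℝ := vQn r x z + (bif ty then vSp r x else vFp r z) with hQn
  set Rd : ℝ := (bif ty then (vSp r x + vFn r z - (vSn r x + vFp r z))
            else (vFp r z + vSn r x - (vFn r z + vSp r x))) with hRd
  have hQp0 : 0 ≤ Qp := by rw [hQp]; cases ty <;> simp <;> positivity
  have hQn0 : 0 ≤ Qn := by rw [hQn]; cases ty <;> simp <;> positivity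
  have hom := omega_bound m hm (x * z) (mul_nonneg hx0 hz0)
  rw [← hNN] at hom
  have k1 := final_step x N (tabT m) (vPp r x z - vPn r x z)
    (vFp r z + vSp r x + r.K4 - (vFn r z + vSn r x)) Qp Qn Rd
    ((al0 + al1 * b2) / (1 + b2)) ((au0 + au1 * b2) / (1 + b2)) (arctan ρ) (x * z)
    (arctan (x * z)) hx0 hx1 hN0 hB hQp0 hQn0 hom hAL hAU
    (by
      refine nonneg_of_mul_nonneg_right (?_ : 0 ≤ D ^ 7 * _) hD7
      refine g2.trans (le_of_eq ?_)
      ring)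
    (by
      refine nonneg_of_mul_nonneg_right (?_ : 0 ≤ D ^ 7 * _) hD7
      refine g3.trans (le_of_eq ?_)
      ring)
  refine k1.trans (le_of_eq ?_)
  rw [hQp, hQn, hRd]
  unfold Gf
  cases ty
  · simp only [cond_false]; ring
  · simp only [cond_true]; ring

end AF06.Chk
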